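import Mathlib

/-!
# Transvections and the euclidean algorithm in `SL(n,ℤ)`
-/

open scoped MatrixGroups

namespace Pool.Agent.TH636.Eucl

/-- The transvection which adds `k` times the coordinate `j` to the coordinate `i`. -/
def T {n : ℕ} {i j : Fin n} (h : i ≠ j) (k : ℤ) : SL(n, ℤ) :=
  ⟨Matrix.transvection i j k, Matrix.det_transvection_of_ne i j h k⟩

lemma T_mulVec {n : ℕ} {i j : Fin n} (h : i ≠ j) (k : ℤ) (z : Fin n → ℤ) :
    (T h k : Matrix (Fin n) (Fin n) ℤ).mulVec z = Function.update z i (z i + k * z j) := by
  funext l
  simp only [T, Matrix.transvection, Matrix.add_mulVec, Matrix.one_mulVec, Pi.add_apply,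
    Matrix.single_mulVec]
  by_cases hl : l = i
  · subst hl
    simp
  · simp [hl]

/-- Every integer vector can be moved to a multiple of the basis vector `e_a`. -/
lemma euclid {n : ℕ} (a : Fin n) : ∀ (m : ℕ) (z : Fin n → ℤ),
    (z a).natAbs + 2 * ∑ j ∈ Finset.univ.erase a, (z j).natAbs ≤ m →
    ∃ (A : SL(n, ℤ)) (g : ℤ), (A : Matrix (Fin n) (Fin n) ℤ).mulVec z = Pi.single a g := by
  intro m
  induction m using Nat.strong_induction_on with
  | _ m ih =>
    intro z hz
    by_cases hall : ∀ j, j ≠ a → z j = 0
    · refine ⟨1, z a, ?_⟩
      simp only [Matrix.SpecialLinearGroup.coe_one, Matrix.one_mulVec]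
      funext j
      by_cases hj : j = a
      · subst hj; simp
      · simp [hj, hall j hj]
    · push Not at hall
      obtain ⟨j, hja, hj⟩ := hall
      have hmem : j ∈ Finset.univ.erase a := by simp [hja]
      have hsum : ∀ w : Fin n → ℤ, (∀ l, l ≠ a → l ≠ j → w l = z l) →
          ∑ l ∈ Finset.univ.erase a, (w l).natAbs + (z j).natAbs =
            ∑ l ∈ Finset.univ.erase a, (z l).natAbs + (w j).natAbs := by
        intro w hw
        rw [← Finset.add_sum_erase _ _ hmem, ← Finset.add_sum_erase _ (fun l => (z l).natAbs) hmem]
        have : ∑ x ∈ (Finset.univ.erase a).erase j, (w x).natAbs =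
            ∑ x ∈ (Finset.univ.erase a).erase j, (z x).natAbs := by
          apply Finset.sum_congr rfl
          intro l hl
          simp only [Finset.mem_erase, Finset.mem_univ, and_true] at hl
          rw [hw l hl.2 hl.1]
        omega
      have step : ∀ (B : SL(n, ℤ)) (w : Fin n → ℤ), (B : Matrix (Fin n) (Fin n) ℤ).mulVec z = w →
          (w a).natAbs + 2 * ∑ l ∈ Finset.univ.erase a, (w l).natAbs < m →
          ∃ (A : SL(n, ℤ)) (g : ℤ), (A : Matrix (Fin n) (Fin n) ℤ).mulVec z = Pi.single a g := by
        intro B w hB hw
        obtain ⟨A, g, hA⟩ := ih _ hw w le_rfl
        refine ⟨A * B, g, ?_⟩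
        rw [Matrix.SpecialLinearGroup.coe_mul, ← Matrix.mulVec_mulVec, hB, hA]
      by_cases hza : z a = 0
      · -- move the entry `z j` to the place `a`
        apply step (T hja (-1) * T hja.symm 1)
          (Function.update (Function.update z a (z j)) j 0)
        · rw [Matrix.SpecialLinearGroup.coe_mul, ← Matrix.mulVec_mulVec, T_mulVec, T_mulVec]
          funext l
          by_cases hl : l = j
          · subst hl
            simp [hja, hza]
          · by_cases hla : l = a
            · subst hla
              simp [Function.update_apply, hl, hza]
            · simp [Function.update_apply, hl, hla]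
        · have h1 := hsum (Function.update (Function.update z a (z j)) j 0) (by
            intro l hla hlj
            simp [hla, hlj])
          have h2 : Function.update (Function.update z a (z j)) j 0 a = z j := by
            simp [hja.symm]
          have h3 : Function.update (Function.update z a (z j)) j 0 j = 0 := by simp
          rw [h2]
          rw [h3] at h1
          simp only [Int.natAbs_zero, add_zero] at h1
          have h4 : 0 < (z j).natAbs := Int.natAbs_pos.2 hj
          omega
      · by_cases hle : (z j).natAbs ≤ (z a).natAbs
        · -- reduce the entry `z a`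
          apply step (T hja.symm (-(z a).sign * (z j).sign)) _ (T_mulVec _ _ _)
          have h1 := hsum (Function.update z a (z a + -(z a).sign * (z j).sign * z j)) (by
            intro l hla hlj
            simp [hla])
          have h2 : Function.update z a (z a + -(z a).sign * (z j).sign * z j) j = z j := by
            simp [hja]
          have h3 : Function.update z a (z a + -(z a).sign * (z j).sign * z j) a =
            z a + -(z a).sign * (z j).sign * z j := by simp
          rw [h2] at h1
          rw [h3]
          have h4 : 0 < (z j).natAbs := Int.natAbs_pos.2 hj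
          have h5 : (z a + -(z a).sign * (z j).sign * z j).natAbs < (z a).natAbs := by
            have e : (z j).sign * z j = ((z j).natAbs : ℤ) := Int.sign_mul_self_eq_natAbs _
            rw [mul_assoc, e]
            rcases lt_or_gt_of_ne hza with h | h
            · rw [Int.sign_eq_neg_one_of_neg h]
              omega
            · rw [Int.sign_eq_one_of_pos h]
              omega
          omega
        · -- reduce the entry `z j`
          apply step (T hja (-(z j).sign * (z a).sign)) _ (T_mulVec _ _ _)
          have h1 := hsum (Function.update z j (z j + -(z j).sign * (z a).sign * z a)) (by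
            intro l hla hlj
            simp [hlj])
          have h2 : Function.update z j (z j + -(z j).sign * (z a).sign * z a) j =
            z j + -(z j).sign * (z a).sign * z a := by simp
          have h3 : Function.update z j (z j + -(z j).sign * (z a).sign * z a) a = z a := by
            simp [hja.symm]
          rw [h2] at h1
          rw [h3]
          have h4 : 0 < (z a).natAbs := Int.natAbs_pos.2 hza
          have h5 : (z j + -(z j).sign * (z a).sign * z a).natAbs < (z j).natAbs := by
            have e : (z a).sign * z a = ((z a).natAbs : ℤ) := Int.sign_mul_self_eq_natAbs _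
            rw [mul_assoc, e]
            rcases lt_or_gt_of_ne hj with h | h
            · rw [Int.sign_eq_neg_one_of_neg h]
              omega
            · rw [Int.sign_eq_one_of_pos h]
              omega
          omega

end Pool.Agent.TH636.Eucl
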