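import Mathlib
import Pool.Agent.TH636.Eucl

/-!
# `SL(n,ℤ)` is a lattice in `SL(n,ℝ)`: reduction by Minkowski's theorem

We define inductively a cone `C n` of real `n × n` matrices (reduced matrices), show that all
matrices outside a null set can be moved to it by `SL(n,ℤ)`, and that the matrices of determinant at
most one in it have finite Lebesgue measure.
-/

open MeasureTheory Matrix
open scoped ENNReal MatrixGroups Pointwise

namespace Pool.Agent.TH636.Lat

open Pool.Agent.TH636.Eucl

/-- Real square matrices, as functions of two variables. -/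
abbrev RM (n : ℕ) := Fin n → Fin n → ℝ

/-- The determinant. -/
noncomputable def dt {n : ℕ} (M : RM n) : ℝ := (Matrix.of M).det

/-- The Schur complement of the upper left entry. -/
noncomputable def sch {n : ℕ} (M : RM (n + 1)) : RM n :=
  fun i j => M i.succ j.succ - M i.succ 0 / M 0 0 * M 0 j.succ

/-- Left multiplication by an integer matrix. -/
noncomputable def lm {n : ℕ} (A : SL(n, ℤ)) : RM n →ₗ[ℝ] RM n where
  toFun M := fun i j => ∑ k, ((A : Matrix (Fin n) (Fin n) ℤ) i k : ℝ) * M k j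
  map_add' M N := by
    funext i j
    simp [mul_add, Finset.sum_add_distrib]
  map_smul' c M := by
    funext i j
    simp only [Pi.smul_apply, smul_eq_mul, RingHom.id_apply, Finset.mul_sum]
    exact Finset.sum_congr rfl fun k _ => by ring

lemma lm_apply {n : ℕ} (A : SL(n, ℤ)) (M : RM n) (i j : Fin n) :
    lm A M i j = ∑ k, ((A : Matrix (Fin n) (Fin n) ℤ) i k : ℝ) * M k j := rfl

lemma lm_eq {n : ℕ} (A : SL(n, ℤ)) (M : RM n) :
    Matrix.of (lm A M) =
      (A : Matrix (Fin n) (Fin n) ℤ).map (Int.cast : ℤ → ℝ) * Matrix.of M := by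
  ext i j
  rw [Matrix.mul_apply]
  rfl

lemma lm_mul {n : ℕ} (A B : SL(n, ℤ)) (M : RM n) : lm (A * B) M = lm A (lm B M) := by
  funext i j
  simp only [lm_apply, Matrix.SpecialLinearGroup.coe_mul, Matrix.mul_apply, Int.cast_sum,
    Int.cast_mul, Finset.sum_mul, Finset.mul_sum]
  rw [Finset.sum_comm]
  exact Finset.sum_congr rfl fun k _ => Finset.sum_congr rfl fun l _ => by ring

lemma lm_one {n : ℕ} (M : RM n) : lm 1 M = M := by
  funext i j
  simp [lm_apply, Matrix.one_apply]

lemma dt_lm {n : ℕ} (A : SL(n, ℤ)) (M : RM n) : dt (lm A M) = dt M := by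
  unfold dt
  rw [lm_eq, Matrix.det_mul]
  have h : ((A : Matrix (Fin n) (Fin n) ℤ).map (Int.cast : ℤ → ℝ)).det = 1 := by
    have h1 := (Int.castRingHom ℝ).map_det (A : Matrix (Fin n) (Fin n) ℤ)
    rw [A.det_coe, map_one] at h1
    exact h1.symm
  rw [h, one_mul]

lemma dt_eq {n : ℕ} (M : RM (n + 1)) (h : M 0 0 ≠ 0) : dt M = M 0 0 * dt (sch M) := by
  unfold dt
  let B : Matrix (Fin (n + 1)) (Fin (n + 1)) ℝ := Matrix.of fun i j =>
    Fin.cases (M 0 j) (fun i => M i.succ j - M i.succ 0 / M 0 0 * M 0 j) i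
  have h1 : (Matrix.of M).det = B.det := by
    apply Matrix.det_eq_of_forall_row_eq_smul_add_const
      (Fin.cases 0 (fun i => M i.succ 0 / M 0 0)) 0 (by simp)
    intro i j
    refine Fin.cases ?_ (fun i => ?_) i
    · simp [B]
    · simp [B]
  rw [h1, Matrix.det_succ_column_zero, Fin.sum_univ_succ]
  have h2 : ∀ i : Fin n, B i.succ 0 = 0 := by
    intro i
    simp [B, div_mul_cancel₀ _ h]
  have h3 : B.submatrix (Fin.succAbove 0) Fin.succ = Matrix.of (sch M) := by
    ext i j
    simp [B, sch]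
  simp only [h2, h3]
  simp [B]

/-- The set of reduced matrices. -/
def C : (n : ℕ) → Set (RM n)
  | 0 => Set.univ
  | n + 1 => {M | (∀ j, |M 0 j| ^ (n + 1) ≤ |dt M|) ∧ M 0 0 ≠ 0 ∧
      (∀ i : Fin n, 0 ≤ M i.succ 0 / M 0 0 ∧ M i.succ 0 / M 0 0 < 1) ∧ sch M ∈ C n}

/-- Matrices for which the reduction never meets a vanishing upper left entry. -/
def Good : (n : ℕ) → Set (RM n)
  | 0 => Set.univ
  | n + 1 => {M | ∀ A : SL(n + 1, ℤ), lm A M 0 0 ≠ 0 ∧ sch (lm A M) ∈ Good n}

/-- Minkowski's theorem on linear forms. -/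
lemma minkowski {n : ℕ} (hn : n ≠ 0) (M : RM n) (hM : dt M ≠ 0) :
    ∃ v : Fin n → ℤ, v ≠ 0 ∧ ∀ j, |∑ i, (v i : ℝ) * M i j| ^ n ≤ |dt M| := by
  classical
  have : Nonempty (Fin n) := ⟨⟨0, Nat.pos_of_ne_zero hn⟩⟩
  let L : (Fin n → ℝ) →ₗ[ℝ] (Fin n → ℝ) := Matrix.toLin' (Matrix.of M)ᵀ
  have hLdet : LinearMap.det L = dt M := by
    rw [LinearMap.det_toLin', Matrix.det_transpose]; rfl
  have hLne : LinearMap.det L ≠ 0 := by rwa [hLdet]
  have hLapp : ∀ v j, L v j = ∑ i, v i * M i j := by
    intro v j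
    simp only [L, Matrix.toLin'_apply, Matrix.mulVec, dotProduct, Matrix.transpose_apply,
      Matrix.of_apply]
    exact Finset.sum_congr rfl fun i _ => mul_comm _ _
  set D : ℝ := |dt M| with hD
  have hDpos : 0 < D := abs_pos.2 hM
  set s : ℝ := D ^ ((n : ℝ)⁻¹) with hs
  have hspos : 0 < s := Real.rpow_pos_of_pos hDpos _
  have hsn : s ^ n = D := by
    rw [hs, ← Real.rpow_natCast, ← Real.rpow_mul hDpos.le, inv_mul_cancel₀ (by exact_mod_cast hn),
      Real.rpow_one]
  let K : Set (Fin n → ℝ) := L ⁻¹' Metric.closedBall 0 s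
  let e := (L.equivOfDetNeZero hLne).toContinuousLinearEquiv
  have hKe : K = e ⁻¹' Metric.closedBall 0 s := rfl
  have hKcpt : IsCompact K := by
    rw [hKe]
    exact e.toHomeomorph.isCompact_preimage.2 (isCompact_closedBall 0 s)
  have hKconv : Convex ℝ K := (convex_closedBall 0 s).linear_preimage L
  have hKsymm : ∀ x ∈ K, -x ∈ K := by
    intro x hx
    have hx : L x ∈ Metric.closedBall (0 : Fin n → ℝ) s := hx
    change L (-x) ∈ Metric.closedBall (0 : Fin n → ℝ) s
    rw [map_neg]
    simpa using hx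
  have hvol : volume K = 2 ^ n := by
    change volume (L ⁻¹' Metric.closedBall 0 s) = _
    rw [Measure.addHaar_preimage_linearMap _ hLne, Real.volume_pi_closedBall _ hspos.le, hLdet,
      Fintype.card_fin, mul_pow, hsn, ← ENNReal.ofReal_mul (abs_nonneg _), abs_inv, ← hD]
    rw [mul_comm (2 ^ n) D, ← mul_assoc, inv_mul_cancel₀ hDpos.ne', one_mul,
      ENNReal.ofReal_pow (by norm_num)]
    norm_num
  let b := Pi.basisFun ℝ (Fin n)
  have hfund := ZSpan.isAddFundamentalDomain b (volume : Measure (Fin n → ℝ))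
  have hfv : volume (ZSpan.fundamentalDomain b) = 1 := by
    rw [ZSpan.volume_fundamentalDomain]
    have : (Matrix.of (b : Fin n → Fin n → ℝ)) = 1 := by
      ext i j
      simp [b, Matrix.one_apply, Pi.single_apply, eq_comm]
    rw [this]
    simp
  have : Countable (Submodule.span ℤ (Set.range b)).toAddSubgroup :=
    (inferInstance : Countable (Submodule.span ℤ (Set.range b)))
  have : DiscreteTopology (Submodule.span ℤ (Set.range b)).toAddSubgroup :=
    (inferInstance : DiscreteTopology (Submodule.span ℤ (Set.range b)))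
  obtain ⟨x, hx0, hx⟩ := exists_ne_zero_mem_lattice_of_measure_mul_two_pow_le_measure
    (L := (Submodule.span ℤ (Set.range b)).toAddSubgroup) hfund hKsymm hKconv hKcpt
    (by rw [hfv, hvol, one_mul]; simp)
  have hmem : (x : Fin n → ℝ) ∈ Submodule.span ℤ (Set.range b) := x.2
  rw [b.mem_span_iff_repr_mem ℤ] at hmem
  choose v hv using hmem
  have hv' : ∀ i, (v i : ℝ) = (x : Fin n → ℝ) i := by
    intro i
    have := hv i
    simpa [b] using this
  refine ⟨v, ?_, ?_⟩
  · rintro rfl
    apply hx0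
    apply Subtype.ext
    funext i
    rw [← hv' i]
    simp
  · intro j
    have h1 : L (x : Fin n → ℝ) ∈ Metric.closedBall (0 : Fin n → ℝ) s := hx
    rw [mem_closedBall_zero_iff] at h1
    have h2 := (norm_le_pi_norm (L (x : Fin n → ℝ)) j).trans h1
    rw [Real.norm_eq_abs, hLapp] at h2
    simp_rw [← hv'] at h2
    calc _ ≤ s ^ n := pow_le_pow_left₀ (abs_nonneg _) h2 n
      _ = D := hsn

/-! ### Reduction -/

/-- The matrix with rows `(1, 0)` and `(k, A)`. -/
def blk {n : ℕ} (A : SL(n, ℤ)) (k : Fin n → ℤ) : SL(n + 1, ℤ) :=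
  ⟨Matrix.of fun i j => Fin.cases (Fin.cases 1 (fun _ => 0) j)
    (fun i => Fin.cases (k i) (fun j => (A : Matrix (Fin n) (Fin n) ℤ) i j) j) i, by
    rw [Matrix.det_succ_row_zero, Fin.sum_univ_succ]
    have h : ((Matrix.of fun i j => Fin.cases (Fin.cases 1 (fun _ => 0) j)
        (fun i => Fin.cases (k i) (fun j => (A : Matrix (Fin n) (Fin n) ℤ) i j) j) i :
          Matrix (Fin (n + 1)) (Fin (n + 1)) ℤ).submatrix Fin.succ (Fin.succAbove 0)) =
        (A : Matrix (Fin n) (Fin n) ℤ) := by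
      ext i j
      simp
    rw [h]
    simp⟩

lemma lm_blk_zero {n : ℕ} (A : SL(n, ℤ)) (k : Fin n → ℤ) (M : RM (n + 1)) (j : Fin (n + 1)) :
    lm (blk A k) M 0 j = M 0 j := by
  rw [lm_apply, Fin.sum_univ_succ]
  simp [blk]

lemma lm_blk_succ {n : ℕ} (A : SL(n, ℤ)) (k : Fin n → ℤ) (M : RM (n + 1)) (i : Fin n)
    (j : Fin (n + 1)) : lm (blk A k) M i.succ j =
      k i * M 0 j + ∑ l, ((A : Matrix (Fin n) (Fin n) ℤ) i l : ℝ) * M l.succ j := by
  rw [lm_apply, Fin.sum_univ_succ]
  simp [blk]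

lemma sch_lm_blk {n : ℕ} (A : SL(n, ℤ)) (k : Fin n → ℤ) (M : RM (n + 1)) (h : M 0 0 ≠ 0) :
    sch (lm (blk A k) M) = lm A (sch M) := by
  funext i j
  have h1 : lm A (sch M) i j = ∑ l, ((A : Matrix (Fin n) (Fin n) ℤ) i l : ℝ) * M l.succ j.succ -
      (∑ l, ((A : Matrix (Fin n) (Fin n) ℤ) i l : ℝ) * M l.succ 0) / M 0 0 * M 0 j.succ := by
    rw [lm_apply, Finset.sum_div, Finset.sum_mul, ← Finset.sum_sub_distrib]
    exact Finset.sum_congr rfl fun l _ => by unfold sch; ring
  rw [h1]
  unfold sch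
  rw [lm_blk_zero, lm_blk_zero, lm_blk_succ, lm_blk_succ]
  field_simp
  ring

theorem cover : ∀ (n : ℕ) (M : RM n), dt M ≠ 0 → M ∈ Good n → ∃ A : SL(n, ℤ), lm A M ∈ C n
  | 0, M, _, _ => ⟨1, trivial⟩
  | n + 1, M, hM, hg => by
    obtain ⟨v, hv0, hv⟩ := minkowski (Nat.succ_ne_zero n) M hM
    obtain ⟨B, g, hB⟩ := euclid 0 _ v le_rfl
    have hvB : v = ((B⁻¹ : SL(n + 1, ℤ)) : Matrix (Fin (n + 1)) (Fin (n + 1)) ℤ).mulVec
        (Pi.single 0 g) := by
      rw [← hB, Matrix.mulVec_mulVec, ← Matrix.SpecialLinearGroup.coe_mul, inv_mul_cancel]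
      simp
    have hvi : ∀ i, v i = ((B⁻¹ : SL(n + 1, ℤ)) : Matrix (Fin (n + 1)) (Fin (n + 1)) ℤ) i 0 * g := by
      intro i
      conv_lhs => rw [hvB]
      rw [Matrix.mulVec_single]
      simp
    have hg0 : g ≠ 0 := by
      rintro rfl
      apply hv0
      funext i
      rw [hvi, mul_zero]; rfl
    let γ : SL(n + 1, ℤ) := (B⁻¹).transpose
    have hγ : ∀ i, (γ : Matrix (Fin (n + 1)) (Fin (n + 1)) ℤ) 0 i =
        ((B⁻¹ : SL(n + 1, ℤ)) : Matrix (Fin (n + 1)) (Fin (n + 1)) ℤ) i 0 := by
      intro i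
      simp [γ]
    have hrow : ∀ j, |lm γ M 0 j| ^ (n + 1) ≤ |dt M| := by
      intro j
      refine le_trans (pow_le_pow_left₀ (abs_nonneg _) ?_ _) (hv j)
      have h1 : ∑ i, (v i : ℝ) * M i j = g * lm γ M 0 j := by
        rw [lm_apply, Finset.mul_sum]
        refine Finset.sum_congr rfl fun i _ => ?_
        rw [hvi, hγ]
        push_cast
        ring
      rw [h1, abs_mul]
      have h2 : (1 : ℝ) ≤ |(g : ℝ)| := by exact_mod_cast Int.one_le_abs hg0
      nlinarith [abs_nonneg (lm γ M 0 j)]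
    have h00 : lm γ M 0 0 ≠ 0 := (hg γ).1
    have hsch := (hg γ).2
    have hdt1 : dt (lm γ M) = lm γ M 0 0 * dt (sch (lm γ M)) := dt_eq _ h00
    have hdt2 : dt (sch (lm γ M)) ≠ 0 := by
      intro h
      rw [h, mul_zero, dt_lm] at hdt1
      exact hM hdt1
    obtain ⟨A', hA'⟩ := cover n (sch (lm γ M)) hdt2 hsch
    let k : Fin n → ℤ := fun i =>
      -⌊(∑ l, ((A' : Matrix (Fin n) (Fin n) ℤ) i l : ℝ) * lm γ M l.succ 0) / lm γ M 0 0⌋
    refine ⟨blk A' k * γ, ?_⟩
    rw [lm_mul]
    refine ⟨?_, ?_, ?_, ?_⟩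
    · intro j
      rw [lm_blk_zero, dt_lm, dt_lm]
      exact hrow j
    · rw [lm_blk_zero]
      exact h00
    · intro i
      rw [lm_blk_zero, lm_blk_succ]
      have e : ((k i : ℝ) * lm γ M 0 0 + ∑ l, ((A' : Matrix (Fin n) (Fin n) ℤ) i l : ℝ) *
          lm γ M l.succ 0) / lm γ M 0 0 =
          Int.fract ((∑ l, ((A' : Matrix (Fin n) (Fin n) ℤ) i l : ℝ) * lm γ M l.succ 0) /
            lm γ M 0 0) := by
        rw [add_div, mul_div_cancel_right₀ _ h00]
        simp only [k, Int.fract]
        push_cast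
        ring
      rw [e]
      exact ⟨Int.fract_nonneg _, Int.fract_lt_one _⟩
    · rw [sch_lm_blk _ _ _ h00]
      exact hA'

/-! ### Scaling -/

lemma dt_smul {n : ℕ} (t : ℝ) (M : RM n) : dt (t • M) = t ^ n * dt M := by
  unfold dt
  have : Matrix.of (t • M) = t • Matrix.of M := rfl
  rw [this, Matrix.det_smul, Fintype.card_fin]

lemma sch_smul {n : ℕ} {t : ℝ} (ht : t ≠ 0) (M : RM (n + 1)) : sch (t • M) = t • sch M := by
  funext i j
  simp only [sch, Pi.smul_apply, smul_eq_mul]
  rw [mul_div_mul_left _ _ ht]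
  ring

theorem C_smul : ∀ (n : ℕ) {t : ℝ} (_ : t ≠ 0) (M : RM n), M ∈ C n → t • M ∈ C n
  | 0, _, _, _, _ => trivial
  | n + 1, t, ht, M, ⟨h1, h2, h3, h4⟩ => by
    refine ⟨?_, ?_, ?_, ?_⟩
    · intro j
      rw [dt_smul]
      simp only [Pi.smul_apply, smul_eq_mul, abs_mul, mul_pow, abs_pow]
      exact mul_le_mul_of_nonneg_left (h1 j) (by positivity)
    · simp only [Pi.smul_apply, smul_eq_mul]
      exact mul_ne_zero ht h2
    · intro i
      simp only [Pi.smul_apply, smul_eq_mul]
      rw [mul_div_mul_left _ _ ht]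
      exact h3 i
    · rw [sch_smul ht]
      exact C_smul n ht _ h4

theorem C_smul_iff (n : ℕ) {t : ℝ} (ht : t ≠ 0) (M : RM n) : t • M ∈ C n ↔ M ∈ C n := by
  refine ⟨fun h => ?_, C_smul n ht M⟩
  have := C_smul n (inv_ne_zero ht) _ h
  rwa [smul_smul, inv_mul_cancel₀ ht, one_smul] at this

theorem Good_smul : ∀ (n : ℕ) {t : ℝ} (_ : t ≠ 0) (M : RM n), M ∈ Good n → t • M ∈ Good n
  | 0, _, _, _, _ => trivial
  | n + 1, t, ht, M, h => by
    intro A
    obtain ⟨h1, h2⟩ := h A
    rw [map_smul, sch_smul ht]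
    exact ⟨mul_ne_zero ht h1, Good_smul n ht _ h2⟩

theorem Good_smul_iff (n : ℕ) {t : ℝ} (ht : t ≠ 0) (M : RM n) : t • M ∈ Good n ↔ M ∈ Good n := by
  refine ⟨fun h => ?_, Good_smul n ht M⟩
  have := Good_smul n (inv_ne_zero ht) _ h
  rwa [smul_smul, inv_mul_cancel₀ ht, one_smul] at this

/-! ### Measurability -/

lemma measurable_dt (n : ℕ) : Measurable (dt : RM n → ℝ) := by
  have : Continuous (dt : RM n → ℝ) := by
    unfold dt
    exact Continuous.matrix_det continuous_id
  exact this.measurable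

lemma measurable_entry {n : ℕ} (i j : Fin n) : Measurable (fun M : RM n => M i j) :=
  (measurable_pi_apply j).comp (measurable_pi_apply i)

lemma measurable_sch (n : ℕ) : Measurable (sch : RM (n + 1) → RM n) := by
  refine measurable_pi_lambda _ fun i => measurable_pi_lambda _ fun j => ?_
  exact (measurable_entry _ _).sub (((measurable_entry _ _).div (measurable_entry _ _)).mul
    (measurable_entry _ _))

lemma measurable_lm {n : ℕ} (A : SL(n, ℤ)) : Measurable (lm A) :=
  (LinearMap.continuous_of_finiteDimensional (lm A)).measurable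

theorem measurableSet_C : ∀ n : ℕ, MeasurableSet (C n)
  | 0 => MeasurableSet.univ
  | n + 1 => by
    have h1 : MeasurableSet {M : RM (n + 1) | ∀ j, |M 0 j| ^ (n + 1) ≤ |dt M|} := by
      have : {M : RM (n + 1) | ∀ j, |M 0 j| ^ (n + 1) ≤ |dt M|} =
          ⋂ j, {M : RM (n + 1) | |M 0 j| ^ (n + 1) ≤ |dt M|} := by
        ext M; simp
      rw [this]
      exact MeasurableSet.iInter fun j => measurableSet_le
        ((measurable_entry 0 j).abs.pow_const _) (measurable_dt _).abs
    have h2 : MeasurableSet {M : RM (n + 1) | M 0 0 ≠ 0} :=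
      (measurableSet_eq_fun (measurable_entry 0 0) measurable_const).compl
    have h3 : MeasurableSet {M : RM (n + 1) | ∀ i : Fin n, 0 ≤ M i.succ 0 / M 0 0 ∧
        M i.succ 0 / M 0 0 < 1} := by
      have : {M : RM (n + 1) | ∀ i : Fin n, 0 ≤ M i.succ 0 / M 0 0 ∧ M i.succ 0 / M 0 0 < 1} =
          ⋂ i : Fin n, ({M : RM (n + 1) | 0 ≤ M i.succ 0 / M 0 0} ∩
            {M : RM (n + 1) | M i.succ 0 / M 0 0 < 1}) := by
        ext M; simp
      rw [this]
      refine MeasurableSet.iInter fun i => ?_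
      have hq : Measurable (fun M : RM (n + 1) => M i.succ 0 / M 0 0) :=
        (measurable_entry _ _).div (measurable_entry _ _)
      exact (measurableSet_le measurable_const hq).inter (measurableSet_lt hq measurable_const)
    have h4 : MeasurableSet (sch ⁻¹' C n : Set (RM (n + 1))) :=
      measurable_sch n (measurableSet_C n)
    exact h1.inter (h2.inter (h3.inter h4))

lemma countable_SL (n : ℕ) : Countable SL(n, ℤ) := by
  have h : Function.Injective (fun A : SL(n, ℤ) => fun (i j : Fin n) =>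
      (A : Matrix (Fin n) (Fin n) ℤ) i j) := by
    intro A B h
    apply Subtype.ext
    funext i j
    exact congrFun (congrFun h i) j
  exact h.countable

theorem measurableSet_Good : ∀ n : ℕ, MeasurableSet (Good n)
  | 0 => MeasurableSet.univ
  | n + 1 => by
    have : Good (n + 1) = ⋂ A : SL(n + 1, ℤ), (lm A ⁻¹' ({M : RM (n + 1) | M 0 0 ≠ 0} ∩
        sch ⁻¹' Good n)) := by
      ext M
      simp only [Good, Set.mem_iInter, Set.mem_preimage, Set.mem_inter_iff]
      rfl
    rw [this]
    have h2 : MeasurableSet {M : RM (n + 1) | M 0 0 ≠ 0} :=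
      (measurableSet_eq_fun (measurable_entry 0 0) measurable_const).compl
    have : Countable SL(n + 1, ℤ) := countable_SL _
    exact MeasurableSet.iInter fun A => measurable_lm A
      (h2.inter (measurable_sch n (measurableSet_Good n)))

/-! ### Volumes -/

/-- The parts of a matrix: the first row, the rest of the first column, the remaining block. -/
def Φ (n : ℕ) : RM (n + 1) ≃ᵐ (Fin (n + 1) → ℝ) × ((Fin n → ℝ) × RM n) :=
  (MeasurableEquiv.piFinSuccAbove (fun _ : Fin (n + 1) => (Fin (n + 1) → ℝ)) 0).trans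
    (MeasurableEquiv.prodCongr (MeasurableEquiv.refl _)
      ((MeasurableEquiv.piCongrRight fun _ : Fin n =>
        MeasurableEquiv.piFinSuccAbove (fun _ : Fin (n + 1) => ℝ) 0).trans
        (MeasurableEquiv.arrowProdEquivProdArrow ℝ (Fin n → ℝ) (Fin n))))

lemma Φ_apply (n : ℕ) (M : RM (n + 1)) :
    Φ n M = (M 0, (fun i => M i.succ 0, fun i j => M i.succ j.succ)) := rfl

lemma Φ_preserving (n : ℕ) : MeasurePreserving (Φ n) := by
  have h1 := volume_preserving_piFinSuccAbove (fun _ : Fin (n + 1) => (Fin (n + 1) → ℝ)) 0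
  have h2 : MeasurePreserving (MeasurableEquiv.piCongrRight fun _ : Fin n =>
        MeasurableEquiv.piFinSuccAbove (fun _ : Fin (n + 1) => ℝ) 0) :=
    volume_preserving_pi fun _ => volume_preserving_piFinSuccAbove (fun _ : Fin (n + 1) => ℝ) 0
  have h3 := volume_measurePreserving_arrowProdEquivProdArrow ℝ (Fin n → ℝ) (Fin n)
  exact ((MeasurePreserving.id _).prod (h3.comp h2)).comp h1

/-- The shear of the block, for a given first row and column. -/
lemma volume_shift {n : ℕ} (P : Set (RM n)) (S : RM n) :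
    volume {N : RM n | N - S ∈ P} = volume P := by
  have : {N : RM n | N - S ∈ P} = (fun N => N + (-S)) ⁻¹' P := by
    ext N
    simp [sub_eq_add_neg]
  rw [this, measure_preimage_add_right]

/-- The shear term. -/
noncomputable def shf {n : ℕ} (r : Fin (n + 1) → ℝ) (c : Fin n → ℝ) : RM n :=
  fun i j => c i / r 0 * r j.succ

lemma sch_eq {n : ℕ} (M : RM (n + 1)) :
    sch M = (Φ n M).2.2 - shf (Φ n M).1 (Φ n M).2.1 := by
  rw [Φ_apply]
  rfl

lemma measurable_shf (n : ℕ) : Measurable (fun p : (Fin (n + 1) → ℝ) × (Fin n → ℝ) =>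
    (shf p.1 p.2 : RM n)) := by
  refine measurable_pi_lambda _ fun i => measurable_pi_lambda _ fun j => ?_
  have h1 : Measurable (fun p : (Fin (n + 1) → ℝ) × (Fin n → ℝ) => p.2 i) :=
    (measurable_pi_apply i).comp measurable_snd
  have h2 : Measurable (fun p : (Fin (n + 1) → ℝ) × (Fin n → ℝ) => p.1 0) :=
    (measurable_pi_apply 0).comp measurable_fst
  have h3 : Measurable (fun p : (Fin (n + 1) → ℝ) × (Fin n → ℝ) => p.1 j.succ) :=
    (measurable_pi_apply _).comp measurable_fst
  exact (h1.div h2).mul h3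

lemma lm_det_ne {n : ℕ} (A : SL(n, ℤ)) : LinearMap.det (lm A) ≠ 0 := by
  have h : lm A ∘ₗ lm A⁻¹ = LinearMap.id := by
    apply LinearMap.ext
    intro M
    rw [LinearMap.comp_apply, ← lm_mul, mul_inv_cancel, lm_one]
    rfl
  have h2 := congrArg LinearMap.det h
  rw [LinearMap.det_comp, LinearMap.det_id] at h2
  exact left_ne_zero_of_mul_eq_one h2

theorem volume_Good_compl : ∀ n : ℕ, volume (Good n)ᶜ = 0
  | 0 => by
    have : (Good 0)ᶜ = (∅ : Set (RM 0)) := Set.compl_univ
    rw [this, measure_empty]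
  | n + 1 => by
    have : Countable SL(n + 1, ℤ) := countable_SL _
    have h1 : (Good (n + 1))ᶜ ⊆ ⋃ A : SL(n + 1, ℤ), (lm A ⁻¹' ({M : RM (n + 1) | M 0 0 = 0} ∪
        sch ⁻¹' (Good n)ᶜ)) := by
      intro M hM
      have hM : ¬ ∀ A : SL(n + 1, ℤ), lm A M 0 0 ≠ 0 ∧ sch (lm A M) ∈ Good n := hM
      push Not at hM
      obtain ⟨A, hA⟩ := hM
      rw [Set.mem_iUnion]
      refine ⟨A, ?_⟩
      by_cases h : lm A M 0 0 = 0
      · exact Or.inl h
      · exact Or.inr (hA h)
    refine measure_mono_null h1 (measure_iUnion_null fun A => ?_)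
    rw [Measure.addHaar_preimage_linearMap _ (lm_det_ne A)]
    have hz : volume ({M : RM (n + 1) | M 0 0 = 0} ∪ sch ⁻¹' (Good n)ᶜ) = 0 := by
      rw [measure_union_null_iff]
      constructor
      · -- a hyperplane
        have h2 : {M : RM (n + 1) | M 0 0 = 0} =
            Φ n ⁻¹' ({r : Fin (n + 1) → ℝ | r 0 = 0} ×ˢ Set.univ) := by
          ext M
          simp [Φ_apply]
        have hms : MeasurableSet {r : Fin (n + 1) → ℝ | r 0 = 0} :=
          measurableSet_eq_fun (measurable_pi_apply 0) measurable_const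
        rw [h2, (Φ_preserving n).measure_preimage (hms.prod MeasurableSet.univ).nullMeasurableSet,
          Measure.volume_eq_prod, Measure.prod_prod]
        have h3 : volume {r : Fin (n + 1) → ℝ | r 0 = 0} = 0 := by
          have h4 : {r : Fin (n + 1) → ℝ | r 0 = 0} =
              Set.pi Set.univ (fun i : Fin (n + 1) => if i = 0 then {0} else Set.univ) := by
            ext r
            simp only [Set.mem_ofPred_eq, Set.mem_pi, Set.mem_univ, true_implies]
            constructor
            · intro h i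
              by_cases hi : i = 0
              · subst hi; simp [h]
              · simp [hi]
            · intro h
              simpa using h 0
          rw [h4, volume_pi_pi]
          exact Finset.prod_eq_zero (Finset.mem_univ 0) (by simp)
        rw [h3, zero_mul]
      · have h2 : (sch ⁻¹' (Good n)ᶜ : Set (RM (n + 1))) =
            Φ n ⁻¹' {p | p.2.2 - shf p.1 p.2.1 ∈ (Good n)ᶜ} := by
          ext M
          rw [Set.mem_preimage, Set.mem_preimage, sch_eq]
          rfl
        have hms : MeasurableSet {p : (Fin (n + 1) → ℝ) × ((Fin n → ℝ) × RM n) |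
            p.2.2 - shf p.1 p.2.1 ∈ (Good n)ᶜ} := by
          have h3 : Measurable (fun p : (Fin (n + 1) → ℝ) × ((Fin n → ℝ) × RM n) =>
              p.2.2 - shf p.1 p.2.1) :=
            (measurable_snd.comp measurable_snd).sub
              ((measurable_shf n).comp (measurable_fst.prodMk (measurable_fst.comp measurable_snd)))
          exact h3 (measurableSet_Good n).compl
        rw [h2, (Φ_preserving n).measure_preimage hms.nullMeasurableSet, Measure.volume_eq_prod,
          Measure.measure_prod_null hms]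
        refine Filter.Eventually.of_forall fun r => ?_
        have hms2 : MeasurableSet (Prod.mk r ⁻¹' {p : (Fin (n + 1) → ℝ) × ((Fin n → ℝ) × RM n) |
            p.2.2 - shf p.1 p.2.1 ∈ (Good n)ᶜ}) := measurable_prodMk_left hms
        change volume (Prod.mk r ⁻¹' {p : (Fin (n + 1) → ℝ) × ((Fin n → ℝ) × RM n) |
            p.2.2 - shf p.1 p.2.1 ∈ (Good n)ᶜ}) = 0
        rw [Measure.volume_eq_prod, Measure.measure_prod_null hms2]
        refine Filter.Eventually.of_forall fun c => ?_
        change volume {N : RM n | N - shf r c ∈ (Good n)ᶜ} = 0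
        rw [volume_shift, volume_Good_compl n]
    rw [hz, mul_zero]

lemma volume_box {n : ℕ} (a : ℝ) (ha : a ≠ 0) :
    volume {c : Fin n → ℝ | ∀ i, 0 ≤ c i / a ∧ c i / a < 1} = ENNReal.ofReal (|a| ^ n) := by
  have h1 : {c : Fin n → ℝ | ∀ i, 0 ≤ c i / a ∧ c i / a < 1} =
      Set.pi Set.univ (fun _ : Fin n => (fun x : ℝ => x * a⁻¹) ⁻¹' Set.Ico 0 1) := by
    ext c
    simp [div_eq_mul_inv]
  rw [h1, volume_pi_pi]
  simp only [Real.volume_preimage_mul_right (inv_ne_zero ha), inv_inv, Real.volume_Ico, sub_zero,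
    ENNReal.ofReal_one, mul_one, Finset.prod_const, Finset.card_univ, Fintype.card_fin]
  rw [ENNReal.ofReal_pow (abs_nonneg a)]

lemma volume_scale (n : ℕ) (t : ℝ) (ht : 1 ≤ t) :
    volume {N : RM n | N ∈ C n ∧ |dt N| ≤ t} ≤
      ENNReal.ofReal (t ^ n) * volume {N : RM n | N ∈ C n ∧ |dt N| ≤ 1} := by
  rcases Nat.eq_zero_or_pos n with rfl | hn
  · have h1 : ∀ N : RM 0, |dt N| = 1 := by
      intro N
      unfold dt
      simp
    simp [h1, ht]
  · have htpos : 0 < t := by linarith
    set s : ℝ := t ^ ((n : ℝ)⁻¹) with hs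
    have hspos : 0 < s := Real.rpow_pos_of_pos htpos _
    have hsn : s ^ n = t := by
      rw [hs, ← Real.rpow_natCast, ← Real.rpow_mul htpos.le,
        inv_mul_cancel₀ (by exact_mod_cast hn.ne'), Real.rpow_one]
    have h1 : {N : RM n | N ∈ C n ∧ |dt N| ≤ t} ⊆ s • {N : RM n | N ∈ C n ∧ |dt N| ≤ 1} := by
      rintro N ⟨hN1, hN2⟩
      rw [Set.mem_smul_set_iff_inv_smul_mem₀ hspos.ne']
      refine ⟨(C_smul_iff n (inv_ne_zero hspos.ne') N).2 hN1, ?_⟩
      rw [dt_smul, inv_pow, hsn, abs_mul, abs_inv, abs_of_pos htpos, inv_mul_le_iff₀ htpos, mul_one]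
      exact hN2
    refine (measure_mono h1).trans ?_
    rw [Measure.addHaar_smul]
    have h2 : Module.finrank ℝ (RM n) = n * n := by
      simp [Module.finrank_pi_fintype]
    rw [h2, pow_mul, hsn, abs_of_nonneg (by positivity)]

theorem volume_C : ∀ n : ℕ, volume {N : RM n | N ∈ C n ∧ |dt N| ≤ 1} < ⊤
  | 0 => by
    refine lt_of_le_of_lt (measure_mono (Set.subset_univ _)) ?_
    have : (Set.univ : Set (RM 0)) = {0} := by
      ext x
      simp [Subsingleton.elim x 0]
    rw [this]
    exact (isCompact_singleton).measure_lt_top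
  | n + 1 => by
    have ih := volume_C n
    set V := volume {N : RM n | N ∈ C n ∧ |dt N| ≤ 1} with hV
    -- the enclosing set
    let Q : Set ((Fin (n + 1) → ℝ) × ((Fin n → ℝ) × RM n)) :=
      {p | ((∀ j, |p.1 j| ≤ 1) ∧ p.1 0 ≠ 0) ∧ (∀ i, 0 ≤ p.2.1 i / p.1 0 ∧ p.2.1 i / p.1 0 < 1) ∧
        (p.2.2 - shf p.1 p.2.1 ∈ C n ∧ |dt (p.2.2 - shf p.1 p.2.1)| ≤ |p.1 0|⁻¹)}
    have hsub : {N : RM (n + 1) | N ∈ C (n + 1) ∧ |dt N| ≤ 1} ⊆ Φ n ⁻¹' Q := by
      rintro M ⟨⟨h1, h2, h3, h4⟩, h5⟩
      have h6 : ∀ j, |M 0 j| ≤ 1 := by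
        intro j
        by_contra hlt
        push Not at hlt
        have := one_lt_pow₀ hlt (Nat.succ_ne_zero n)
        have h7 := h1 j
        rw [Nat.succ_eq_add_one] at this
        linarith
      refine ⟨⟨h6, h2⟩, h3, ?_⟩
      rw [← sch_eq]
      refine ⟨h4, ?_⟩
      rw [dt_eq M h2, abs_mul] at h5
      change |dt (sch M)| ≤ |M 0 0|⁻¹
      rw [← one_div, le_div_iff₀ (abs_pos.2 h2), mul_comm]
      exact h5
    have hmeas1 : Measurable (fun p : (Fin (n + 1) → ℝ) × ((Fin n → ℝ) × RM n) =>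
        p.2.2 - shf p.1 p.2.1) :=
      (measurable_snd.comp measurable_snd).sub
        ((measurable_shf n).comp (measurable_fst.prodMk (measurable_fst.comp measurable_snd)))
    have hr0 : Measurable (fun p : (Fin (n + 1) → ℝ) × ((Fin n → ℝ) × RM n) => p.1 0) :=
      (measurable_pi_apply 0).comp measurable_fst
    have hQ : MeasurableSet Q := by
      have q1 : MeasurableSet {p : (Fin (n + 1) → ℝ) × ((Fin n → ℝ) × RM n) | ∀ j, |p.1 j| ≤ 1} := by
        have : {p : (Fin (n + 1) → ℝ) × ((Fin n → ℝ) × RM n) | ∀ j, |p.1 j| ≤ 1} =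
            ⋂ j, {p : (Fin (n + 1) → ℝ) × ((Fin n → ℝ) × RM n) | |p.1 j| ≤ 1} := by
          ext p; simp
        rw [this]
        exact MeasurableSet.iInter fun j => measurableSet_le
          ((measurable_pi_apply j).comp measurable_fst).abs measurable_const
      have q2 : MeasurableSet {p : (Fin (n + 1) → ℝ) × ((Fin n → ℝ) × RM n) | p.1 0 ≠ 0} :=
        (measurableSet_eq_fun hr0 measurable_const).compl
      have q3 : MeasurableSet {p : (Fin (n + 1) → ℝ) × ((Fin n → ℝ) × RM n) |
          ∀ i, 0 ≤ p.2.1 i / p.1 0 ∧ p.2.1 i / p.1 0 < 1} := by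
        have : {p : (Fin (n + 1) → ℝ) × ((Fin n → ℝ) × RM n) |
            ∀ i, 0 ≤ p.2.1 i / p.1 0 ∧ p.2.1 i / p.1 0 < 1} =
            ⋂ i : Fin n, ({p : (Fin (n + 1) → ℝ) × ((Fin n → ℝ) × RM n) | 0 ≤ p.2.1 i / p.1 0} ∩
              {p : (Fin (n + 1) → ℝ) × ((Fin n → ℝ) × RM n) | p.2.1 i / p.1 0 < 1}) := by
          ext p; simp
        rw [this]
        refine MeasurableSet.iInter fun i => ?_
        have hq : Measurable (fun p : (Fin (n + 1) → ℝ) × ((Fin n → ℝ) × RM n) =>
            p.2.1 i / p.1 0) :=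
          ((measurable_pi_apply i).comp (measurable_fst.comp measurable_snd)).div hr0
        exact (measurableSet_le measurable_const hq).inter (measurableSet_lt hq measurable_const)
      have q4 : MeasurableSet {p : (Fin (n + 1) → ℝ) × ((Fin n → ℝ) × RM n) |
          p.2.2 - shf p.1 p.2.1 ∈ C n} := hmeas1 (measurableSet_C n)
      have q5 : MeasurableSet {p : (Fin (n + 1) → ℝ) × ((Fin n → ℝ) × RM n) |
          |dt (p.2.2 - shf p.1 p.2.1)| ≤ |p.1 0|⁻¹} :=
        measurableSet_le ((measurable_dt n).comp hmeas1).abs hr0.abs.inv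
      exact (q1.inter q2).inter (q3.inter (q4.inter q5))
    have hvol : volume (Φ n ⁻¹' Q) = volume Q :=
      (Φ_preserving n).measure_preimage hQ.nullMeasurableSet
    refine lt_of_le_of_lt (measure_mono hsub) ?_
    rw [hvol, Measure.volume_eq_prod, Measure.prod_apply hQ]
    let K : Set (Fin (n + 1) → ℝ) := Metric.closedBall 0 1
    have hslice : ∀ r : Fin (n + 1) → ℝ, volume (Prod.mk r ⁻¹' Q) ≤ K.indicator (fun _ => V) r := by
      intro r
      by_cases hr : (∀ j, |r j| ≤ 1) ∧ r 0 ≠ 0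
      · have hrK : r ∈ K := by
          rw [mem_closedBall_zero_iff, pi_norm_le_iff_of_nonneg zero_le_one]
          exact fun j => hr.1 j
        rw [Set.indicator_of_mem hrK]
        have hr0' : 0 < |r 0| := abs_pos.2 hr.2
        have hr1 : 1 ≤ |r 0|⁻¹ := (one_le_inv₀ hr0').2 (hr.1 0)
        let Bx : Set (Fin n → ℝ) := {c | ∀ i, 0 ≤ c i / r 0 ∧ c i / r 0 < 1}
        have hBx : MeasurableSet Bx := by
          have : Bx = ⋂ i : Fin n, ({c : Fin n → ℝ | 0 ≤ c i / r 0} ∩ {c | c i / r 0 < 1}) := by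
            ext c; simp [Bx]
          rw [this]
          refine MeasurableSet.iInter fun i => ?_
          have hq : Measurable (fun c : Fin n → ℝ => c i / r 0) :=
            (measurable_pi_apply i).div_const _
          exact (measurableSet_le measurable_const hq).inter (measurableSet_lt hq measurable_const)
        rw [Measure.volume_eq_prod, Measure.prod_apply (measurable_prodMk_left hQ)]
        calc ∫⁻ c, volume (Prod.mk c ⁻¹' (Prod.mk r ⁻¹' Q))
            ≤ ∫⁻ c, Bx.indicator (fun _ => ENNReal.ofReal ((|r 0|⁻¹) ^ n) * V) c := by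
              refine lintegral_mono fun c => ?_
              by_cases hc : c ∈ Bx
              · rw [Set.indicator_of_mem hc]
                refine le_trans ?_ (volume_scale n _ hr1)
                rw [← volume_shift {N : RM n | N ∈ C n ∧ |dt N| ≤ |r 0|⁻¹} (shf r c)]
                refine measure_mono ?_
                rintro N ⟨-, -, h⟩
                exact h
              · rw [Set.indicator_of_notMem hc]
                have : Prod.mk c ⁻¹' (Prod.mk r ⁻¹' Q) = ∅ := by
                  rw [Set.eq_empty_iff_forall_notMem]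
                  rintro N ⟨-, h, -⟩
                  exact hc h
                rw [this, measure_empty]
          _ = (ENNReal.ofReal ((|r 0|⁻¹) ^ n) * V) * volume Bx := by
              rw [lintegral_indicator_const hBx]
          _ = V := by
              rw [volume_box (r 0) hr.2, mul_comm, ← mul_assoc, ← ENNReal.ofReal_mul (by positivity),
                ← mul_pow, mul_inv_cancel₀ hr0'.ne', one_pow, ENNReal.ofReal_one, one_mul]
      · have : Prod.mk r ⁻¹' Q = ∅ := by
          rw [Set.eq_empty_iff_forall_notMem]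
          rintro N ⟨h, -, -⟩
          exact hr h
        rw [this, measure_empty]
        exact zero_le
    calc ∫⁻ r, volume (Prod.mk r ⁻¹' Q) ≤ ∫⁻ r, K.indicator (fun _ => V) r := lintegral_mono hslice
      _ = V * volume K := lintegral_indicator_const Metric.isClosed_closedBall.measurableSet _
      _ < ⊤ := ENNReal.mul_lt_top ih (isCompact_closedBall _ _).measure_lt_top

/-! ### The lattice -/

/-- The cone over a set of matrices of determinant one. -/
def cone {n : ℕ} (F : Set SL(n, ℝ)) : Set (RM n) :=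
  {M | ∃ t : ℝ, 0 < t ∧ t ≤ 1 ∧ ∃ g ∈ F, ∀ i j, M i j = t * (g : Matrix (Fin n) (Fin n) ℝ) i j}

/-- The subgroup `Γ` of `SL(n,ℝ)` is a lattice: it is discrete and has finite covolume, for the Haar
measure of `SL(n,ℝ)` which assigns to a set the Lebesgue measure of the cone over it. -/
def IsLattice {n : ℕ} (Γ : Subgroup SL(n, ℝ)) : Prop :=
  (∃ ε : ℝ, 0 < ε ∧ ∀ γ ∈ Γ, (∀ i j, |(γ : Matrix (Fin n) (Fin n) ℝ) i j -
    (1 : Matrix (Fin n) (Fin n) ℝ) i j| < ε) → γ = 1) ∧
  ∃ F : Set SL(n, ℝ), (∀ g : SL(n, ℝ), ∃ γ ∈ Γ, γ * g ∈ F) ∧ MeasurableSet (cone F) ∧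
    volume (cone F) < ⊤

/-- The group `SL(n,ℤ)`, as a subgroup of `SL(n,ℝ)`. -/
def Gam (n : ℕ) : Subgroup SL(n, ℝ) :=
  (Matrix.SpecialLinearGroup.map (n := Fin n) (Int.castRingHom ℝ)).range

theorem isLattice_Gam {n : ℕ} (hn : n ≠ 0) : IsLattice (Gam n) := by
  constructor
  · refine ⟨1, one_pos, ?_⟩
    rintro _ ⟨A, rfl⟩ h
    have h1 : A = 1 := by
      apply Subtype.ext
      funext i j
      have h2 := h i j
      have h3 : ((Matrix.SpecialLinearGroup.map (n := Fin n) (Int.castRingHom ℝ) A : SL(n, ℝ)) :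
          Matrix (Fin n) (Fin n) ℝ) i j - (1 : Matrix (Fin n) (Fin n) ℝ) i j =
          (((A : Matrix (Fin n) (Fin n) ℤ) i j - (1 : Matrix (Fin n) (Fin n) ℤ) i j : ℤ) : ℝ) := by
        simp only [Matrix.SpecialLinearGroup.map_apply_coe, RingHom.mapMatrix_apply,
          Matrix.map_apply, Int.coe_castRingHom, Int.cast_sub, Matrix.one_apply]
        split_ifs <;> simp
      rw [h3] at h2
      have h4 : |(A : Matrix (Fin n) (Fin n) ℤ) i j - (1 : Matrix (Fin n) (Fin n) ℤ) i j| < 1 := by
        exact_mod_cast h2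
      have h5 := Int.abs_lt_one_iff.1 h4
      have h6 : ((1 : SL(n, ℤ)) : Matrix (Fin n) (Fin n) ℤ) i j = (1 : Matrix (Fin n) (Fin n) ℤ) i j := rfl
      rw [h6]
      linarith
    rw [h1, map_one]
  · let F : Set SL(n, ℝ) := {g | (fun i j => (g : Matrix (Fin n) (Fin n) ℝ) i j : RM n) ∈ C n ∪ (Good n)ᶜ}
    have hcone : cone F = {M : RM n | M ∈ C n ∪ (Good n)ᶜ ∧ 0 < dt M ∧ dt M ≤ 1} := by
      ext M
      constructor
      · rintro ⟨t, ht0, ht1, g, hg, hM⟩
        have e : M = t • (fun i j => (g : Matrix (Fin n) (Fin n) ℝ) i j : RM n) := by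
          funext i j
          exact hM i j
        have hdg : dt (fun i j => (g : Matrix (Fin n) (Fin n) ℝ) i j : RM n) = 1 := g.2
        refine ⟨?_, ?_, ?_⟩
        · rcases hg with hg | hg
          · left
            rw [e]
            exact C_smul n ht0.ne' _ hg
          · right
            intro h
            rw [e, Good_smul_iff n ht0.ne'] at h
            exact hg h
        · rw [e, dt_smul, hdg, mul_one]
          positivity
        · rw [e, dt_smul, hdg, mul_one]
          exact pow_le_one₀ ht0.le ht1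
      · rintro ⟨hM, hd0, hd1⟩
        set s : ℝ := (dt M) ^ ((n : ℝ)⁻¹) with hs
        have hspos : 0 < s := Real.rpow_pos_of_pos hd0 _
        have hsn : s ^ n = dt M := by
          rw [hs, ← Real.rpow_natCast, ← Real.rpow_mul hd0.le,
            inv_mul_cancel₀ (by exact_mod_cast hn), Real.rpow_one]
        have hs1 : s ≤ 1 := Real.rpow_le_one hd0.le hd1 (by positivity)
        have hdet : (Matrix.of (s⁻¹ • M)).det = 1 := by
          change dt (s⁻¹ • M) = 1
          rw [dt_smul, inv_pow, hsn, inv_mul_cancel₀ hd0.ne']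
        refine ⟨s, hspos, hs1, ⟨Matrix.of (s⁻¹ • M), hdet⟩, ?_, ?_⟩
        · change (s⁻¹ • M) ∈ C n ∪ (Good n)ᶜ
          rcases hM with hM | hM
          · left
            exact C_smul n (inv_ne_zero hspos.ne') _ hM
          · right
            intro h
            rw [Good_smul_iff n (inv_ne_zero hspos.ne')] at h
            exact hM h
        · intro i j
          change M i j = s * (s⁻¹ * M i j)
          rw [← mul_assoc, mul_inv_cancel₀ hspos.ne', one_mul]
    refine ⟨F, ?_, ?_, ?_⟩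
    · intro g
      by_cases hgood : (fun i j => (g : Matrix (Fin n) (Fin n) ℝ) i j : RM n) ∈ Good n
      · have hdg : dt (fun i j => (g : Matrix (Fin n) (Fin n) ℝ) i j : RM n) = 1 := g.2
        obtain ⟨A, hA⟩ := cover n _ (by rw [hdg]; exact one_ne_zero) hgood
        refine ⟨Matrix.SpecialLinearGroup.map (n := Fin n) (Int.castRingHom ℝ) A, ⟨A, rfl⟩, ?_⟩
        left
        convert hA using 1
        funext i j
        rw [lm_apply, Matrix.SpecialLinearGroup.coe_mul, Matrix.mul_apply]
        rfl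
      · refine ⟨1, one_mem _, ?_⟩
        rw [one_mul]
        exact Or.inr hgood
    · rw [hcone]
      exact ((measurableSet_C n).union (measurableSet_Good n).compl).inter
        ((measurableSet_lt measurable_const (measurable_dt n)).inter
          (measurableSet_le (measurable_dt n) measurable_const))
    · rw [hcone]
      have hsub : {M : RM n | M ∈ C n ∪ (Good n)ᶜ ∧ 0 < dt M ∧ dt M ≤ 1} ⊆
          {N : RM n | N ∈ C n ∧ |dt N| ≤ 1} ∪ (Good n)ᶜ := by
        rintro M ⟨hM | hM, h0, h1⟩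
        · left
          exact ⟨hM, by rw [abs_of_pos h0]; exact h1⟩
        · exact Or.inr hM
      refine lt_of_le_of_lt (measure_mono hsub) (lt_of_le_of_lt (measure_union_le _ _) ?_)
      rw [volume_Good_compl, add_zero]
      exact volume_C n

end Pool.Agent.TH636.Lat
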