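import Mathlib

/-!
# A branch group with an automorphism which does not come from the tree

`L` is the group of all automorphisms of the binary rooted tree which act on the second level by
translations `(a, b) ↦ (a + s, b + t)`.  Elements are given by portraits.
-/

set_option autoImplicit false

namespace Pool.Agent.TH636.Branch

/-- the action of a portrait on words -/
def act : (List Bool → Bool) → List Bool → List Bool
  | _, [] => []
  | p, a :: l => (xor a (p [])) :: act (fun u => p (a :: u)) l

/-- the inverse action -/
def iact : (List Bool → Bool) → List Bool → List Bool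
  | _, [] => []
  | p, a :: l => (xor a (p [])) :: iact (fun u => p ((xor a (p [])) :: u)) l

lemma iact_act (l : List Bool) : ∀ p : List Bool → Bool, iact p (act p l) = l := by
  induction l with
  | nil => intro p; rfl
  | cons a l ih =>
    intro p
    simp only [act, iact, Bool.xor_assoc, Bool.xor_self, Bool.xor_false]
    rw [ih]

/-- composition of portraits -/
def comp (p q : List Bool → Bool) : List Bool → Bool := fun u => xor (q u) (p (act q u))

lemma act_zero (l : List Bool) : ∀ p : List Bool → Bool,
    (∀ w, w <+: l → w.length < l.length → p w = false) → act p l = l := by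
  induction l with
  | nil => intro p _; rfl
  | cons a l ih =>
    intro p hp
    simp only [act]
    rw [hp [] List.nil_prefix (by simp), Bool.xor_false, ih]
    intro w hw hl
    exact hp _ ((List.prefix_cons_inj a).2 hw) (by simpa using hl)

lemma act_comp (l : List Bool) : ∀ p q : List Bool → Bool,
    act (comp p q) l = act p (act q l) := by
  induction l with
  | nil => intro p q; rfl
  | cons a l ih =>
    intro p q
    have h := ih (fun u => p ((xor a (q [])) :: u)) (fun u => q (a :: u))
    have h2 : (fun u => comp p q (a :: u)) =
        comp (fun u => p ((xor a (q [])) :: u)) (fun u => q (a :: u)) := rfl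
    simp only [act]
    rw [h2, h]
    simp only [comp, act, Bool.xor_assoc]

lemma act_length (l : List Bool) : ∀ p : List Bool → Bool, (act p l).length = l.length := by
  induction l with
  | nil => intro p; rfl
  | cons a l ih => intro p; simp only [act, List.length_cons, ih]

lemma act_append (l : List Bool) : ∀ (p : List Bool → Bool) (k : List Bool),
    act p (l ++ k) = act p l ++ act (fun u => p (l ++ u)) k := by
  induction l with
  | nil => intro p k; rfl
  | cons a l ih =>
    intro p k
    simp only [List.cons_append, act]
    rw [ih]

lemma act_prefix (p : List Bool → Bool) (u v : List Bool) (h : u <+: v) :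
    act p u <+: act p v := by
  obtain ⟨k, rfl⟩ := h
  rw [act_append]
  exact List.prefix_append _ _

/-- portraits of automorphisms of the binary tree -/
@[ext]
structure Port where
  /-- the labels -/
  f : List Bool → Bool

instance : One Port := ⟨⟨fun _ => false⟩⟩
instance : Mul Port := ⟨fun p q => ⟨comp p.f q.f⟩⟩
instance : Inv Port := ⟨fun p => ⟨fun u => p.f (iact p.f u)⟩⟩

lemma one_f (u : List Bool) : (1 : Port).f u = false := rfl
lemma mul_f (p q : Port) (u : List Bool) : (p * q).f u = xor (q.f u) (p.f (act q.f u)) := rfl
lemma mul_f' (p q : Port) : (p * q).f = comp p.f q.f := rfl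
lemma inv_f (p : Port) (u : List Bool) : p⁻¹.f u = p.f (iact p.f u) := rfl

instance : Group Port := Group.ofLeftAxioms
  (by
    intro p q r
    ext u
    rw [mul_f, mul_f, mul_f, mul_f, mul_f', act_comp, Bool.xor_assoc])
  (by
    intro p
    ext u
    rw [mul_f, one_f, Bool.xor_false])
  (by
    intro p
    ext u
    rw [mul_f, inv_f, one_f, iact_act, Bool.xor_self])

lemma act_one (l : List Bool) : act (1 : Port).f l = l := act_zero l _ (fun _ _ _ => rfl)

lemma act_mul (l : List Bool) (p q : Port) : act (p * q).f l = act p.f (act q.f l) :=
  act_comp l p.f q.f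

lemma prefix_iff (p : Port) (u v : List Bool) : u <+: v ↔ act p.f u <+: act p.f v := by
  constructor
  · exact act_prefix p.f u v
  · intro h
    have h2 := act_prefix (p⁻¹).f _ _ h
    rw [← act_mul, ← act_mul, inv_mul_cancel, act_one, act_one] at h2
    exact h2

lemma act_injective (p q : Port) (h : ∀ l, act p.f l = act q.f l) : p = q := by
  ext u
  have h1 := h (u ++ [false])
  rw [act_append, act_append, h u] at h1
  have h2 := List.append_cancel_left h1
  simp only [act, List.append_nil, Bool.false_xor, List.cons.injEq, and_true] at h2
  rw [h2]

lemma transitive (u : List Bool) : ∀ v : List Bool, u.length = v.length →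
    ∃ c : ℕ → Bool, act (fun w => c w.length) u = v := by
  induction u with
  | nil =>
    intro v hv
    refine ⟨fun _ => false, ?_⟩
    have : v = [] := List.length_eq_zero_iff.1 hv.symm
    rw [this]
    rfl
  | cons a u ih =>
    intro v hv
    cases v with
    | nil => simp at hv
    | cons b v =>
      obtain ⟨c, hc⟩ := ih v (by simpa using hv)
      refine ⟨fun n => Nat.casesOn n (xor a b) c, ?_⟩
      simp only [act, List.length_nil, List.length_cons]
      rw [hc]
      simp

/-- The group `L` in terms of portraits: those which act on the second level by a translation. -/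
def Q : Subgroup Port where
  carrier := {p | p.f [false] = p.f [true]}
  one_mem' := rfl
  mul_mem' := by
    intro p q hp hq
    have hp' : p.f [false] = p.f [true] := hp
    have hq' : q.f [false] = q.f [true] := hq
    show (p * q).f [false] = (p * q).f [true]
    simp only [mul_f, act]
    rw [hq']
    cases q.f [] <;> simp [hp']
  inv_mem' := by
    intro p hp
    have hp' : p.f [false] = p.f [true] := hp
    show p⁻¹.f [false] = p⁻¹.f [true]
    simp only [inv_f, iact]
    cases p.f [] <;> simp [hp']

lemma mem_Q (p : Port) : p ∈ Q ↔ p.f [false] = p.f [true] := Iff.rfl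

lemma Q_eq (p : Q) (x : Bool) : p.1.f [x] = p.1.f [false] := by
  have := (mem_Q p.1).1 p.2
  cases x
  · rfl
  · exact this.symm

/-- exchange the first two coordinates -/
def swapP (p : List Bool → Bool) : List Bool → Bool
  | [] => p [false]
  | [_] => p []
  | b :: a :: u => p (a :: b :: u)

lemma swapP_mem (p : Port) : (⟨swapP p.f⟩ : Port) ∈ Q := rfl

lemma swapP_mul (p q : Q) : (⟨swapP ((p * q : Q) : Port).f⟩ : Port) =
    (⟨swapP p.1.f⟩ : Port) * ⟨swapP q.1.f⟩ := by
  ext u
  rw [mul_f]
  match u with
  | [] =>
    simp only [Subgroup.coe_mul, act, swapP, mul_f]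
    rw [Q_eq p]
  | [x] =>
    simp only [Subgroup.coe_mul, act, swapP, mul_f]
  | b :: a :: u =>
    simp only [Subgroup.coe_mul, act, swapP, mul_f]
    rw [Q_eq q a]

lemma swapP_swapP (p : Q) : (⟨swapP (swapP p.1.f)⟩ : Port) = p.1 := by
  ext u
  match u with
  | [] => rfl
  | [x] => rw [Q_eq p x]; rfl
  | b :: a :: u => rfl

/-- the automorphism of `Q` -/
def phiQ : Q ≃* Q where
  toFun p := ⟨⟨swapP p.1.f⟩, swapP_mem p.1⟩
  invFun p := ⟨⟨swapP p.1.f⟩, swapP_mem p.1⟩
  left_inv p := Subtype.ext (swapP_swapP p)
  right_inv p := Subtype.ext (swapP_swapP p)
  map_mul' p q := Subtype.ext (swapP_mul p q)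

lemma phiQ_f (p : Q) : (phiQ p).1.f = swapP p.1.f := rfl

/-! ### Decomposition of the level stabilizers -/

lemma take_act (p : List Bool → Bool) (N : ℕ) (hp : ∀ w, w.length < N → p w = false)
    (w : List Bool) : (act p w).take N = w.take N := by
  have h2 : act p (w.take N) = w.take N := by
    apply act_zero
    intro v _ hv
    exact hp v (lt_of_lt_of_le hv (by rw [List.length_take]; exact min_le_left _ _))
  rcases le_or_gt w.length N with h | h
  · rw [List.take_of_length_le h] at h2 ⊢
    rw [h2, List.take_of_length_le h]
  · have h1 : w.take N ++ w.drop N = w := List.take_append_drop N w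
    have h3 : (w.take N).length = N := by rw [List.length_take]; exact min_eq_left h.le
    have h4 : act p w = w.take N ++ act (fun u => p (w.take N ++ u)) (w.drop N) := by
      conv_lhs => rw [← h1]
      rw [act_append, h2]
    rw [h4]
    exact List.take_left' h3

/-- Restriction of a portrait to the words whose initial part of length `N` satisfies `P`. -/
def restr (p : Port) (N : ℕ) (P : List Bool → Bool) : Port := ⟨fun w => P (w.take N) && p.f w⟩

lemma restr_mul (p : Port) (N : ℕ) (hp : ∀ w, w.length < N → p.f w = false) (u : List Bool)
    (hu : u.length = N) :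
    p = restr p N (fun x => decide (x = u)) * restr p N (fun x => decide (x ≠ u)) := by
  ext w
  rw [mul_f]
  have hq : ∀ v : List Bool, v.length < N → (restr p N (fun x => decide (x ≠ u))).f v = false := by
    intro v hv
    show (_ && p.f v) = false
    rw [hp v hv, Bool.and_false]
  have h1 := take_act _ N hq w
  by_cases hw : w.take N = u
  · have h2 : act (restr p N (fun x => decide (x ≠ u))).f w = w := by
      apply act_zero
      intro v hv hl
      rcases lt_or_ge v.length N with h | h
      · exact hq v h
      · have h3 : v.take N = w.take N := by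
          obtain ⟨k, rfl⟩ := hv
          rw [List.take_append_of_le_length h]
        show (decide (v.take N ≠ u) && p.f v) = false
        rw [h3, hw]
        simp
    rw [h2]
    show p.f w = xor (decide (w.take N ≠ u) && p.f w) (decide (w.take N = u) && p.f w)
    rw [hw]
    simp
  · show p.f w = xor (decide (w.take N ≠ u) && p.f w)
      (decide ((act (restr p N (fun x => decide (x ≠ u))).f w).take N = u) && _)
    rw [h1]
    simp [hw]

/-- generation of the level stabilizer by the elements supported on one subtree -/
lemma mem_closure_of_zero (N : ℕ) (H : Submonoid Port)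
    (hH : ∀ u : List Bool, u.length = N → ∀ p : Port, (∀ w, w.length < N → p.f w = false) →
      (∀ w, p.f w = true → w.take N = u) → p ∈ H)
    (S : Finset (List Bool)) : (∀ u ∈ S, u.length = N) → ∀ p : Port,
    (∀ w, w.length < N → p.f w = false) → (∀ w, p.f w = true → w.take N ∈ S) → p ∈ H := by
  induction S using Finset.induction_on with
  | empty =>
    intro _ p _ h
    have : p = 1 := by
      ext w
      rw [one_f]
      cases hw : p.f w
      · rfl
      · exact absurd (h w hw) (Finset.notMem_empty _)
    rw [this]
    exact H.one_mem
  | insert u S hu ih =>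
    intro hS p hp h
    rw [restr_mul p N hp u (hS u (Finset.mem_insert_self _ _))]
    apply H.mul_mem
    · apply hH u (hS u (Finset.mem_insert_self _ _))
      · intro w hw
        show (_ && p.f w) = false
        rw [hp w hw, Bool.and_false]
      · intro w hw
        have hw' : (decide (w.take N = u) && p.f w) = true := hw
        rw [Bool.and_eq_true, decide_eq_true_eq] at hw'
        exact hw'.1
    · apply ih (fun v hv => hS v (Finset.mem_insert_of_mem hv))
      · intro w hw
        show (_ && p.f w) = false
        rw [hp w hw, Bool.and_false]
      · intro w hw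
        have hw' : (decide (w.take N ≠ u) && p.f w) = true := hw
        rw [Bool.and_eq_true, decide_eq_true_eq] at hw'
        rcases Finset.mem_insert.1 (h w hw'.2) with h2 | h2
        · exact absurd h2 hw'.1
        · exact h2

/-- the words of length `N` -/
def level (N : ℕ) : Finset (List Bool) :=
  (Finset.univ : Finset (List.Vector Bool N)).image (fun v => v.1)

lemma mem_level (N : ℕ) (w : List Bool) : w ∈ level N ↔ w.length = N := by
  unfold level
  rw [Finset.mem_image]
  constructor
  · rintro ⟨v, _, rfl⟩
    exact v.2
  · intro h
    exact ⟨⟨w, h⟩, Finset.mem_univ _, rfl⟩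

lemma mem_of_zero (N : ℕ) (H : Submonoid Port)
    (hH : ∀ u : List Bool, u.length = N → ∀ p : Port, (∀ w, w.length < N → p.f w = false) →
      (∀ w, p.f w = true → w.take N = u) → p ∈ H) (p : Port)
    (hp : ∀ w, w.length < N → p.f w = false) : p ∈ H := by
  apply mem_closure_of_zero N H hH (level N) (fun u hu => (mem_level N u).1 hu) p hp
  intro w hw
  rw [mem_level, List.length_take]
  apply min_eq_left
  by_contra hlt
  rw [hp w (not_le.1 hlt)] at hw
  exact absurd hw (by simp)

/-- the action on the words of length `N` -/
def levelHom (N : ℕ) : Port →* Equiv.Perm (List.Vector Bool N) where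
  toFun p :=
    { toFun := fun v => ⟨act p.f v.1, by rw [act_length]; exact v.2⟩
      invFun := fun v => ⟨act (p⁻¹).f v.1, by rw [act_length]; exact v.2⟩
      left_inv := fun v => Subtype.ext (by
        show act (p⁻¹).f (act p.f v.1) = v.1
        rw [← act_mul, inv_mul_cancel, act_one])
      right_inv := fun v => Subtype.ext (by
        show act p.f (act (p⁻¹).f v.1) = v.1
        rw [← act_mul, mul_inv_cancel, act_one]) }
  map_one' := by
    ext1 v
    exact Subtype.ext (act_one v.1)
  map_mul' p q := by
    ext1 v
    exact Subtype.ext (act_mul v.1 p q)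

lemma zero_of_mem_ker (N : ℕ) (p : Port) (h : p ∈ (levelHom N).ker) (w : List Bool)
    (hw : w.length < N) : p.f w = false := by
  have h0 : ∀ v : List Bool, v.length = N → act p.f v = v := by
    intro v hv
    have h1 := congrArg (fun σ => (σ ⟨v, hv⟩ : List.Vector Bool N)) (MonoidHom.mem_ker.1 h)
    exact congrArg Subtype.val h1
  -- extend `w` by zeros
  obtain ⟨k, hk⟩ : ∃ k, N = w.length + (k + 1) := ⟨N - w.length - 1, by omega⟩
  have h1 := h0 (w ++ (false :: List.replicate k false)) (by simp; omega)
  rw [act_append] at h1
  have h2 : (act p.f w).length = w.length := act_length _ _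
  have h3 := (List.append_inj h1 h2).2
  simp only [act, List.append_nil, Bool.false_xor, List.cons.injEq] at h3
  exact h3.1

end Pool.Agent.TH636.Branch
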