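import Mathlib

/-!
# A recurrent unbounded orbit of an isometry of a Hilbert space (Edelstein)
-/

set_option autoImplicit false

namespace Pool.Agent.TH636.Edel

open Filter Topology Complex

/-- the Hilbert space -/
abbrev Hs : Type := lp (fun _ : ℕ => ℂ) 2

/-- the periods -/
def h (k : ℕ) : ℕ := 2 ^ (k ^ 2 + 4 * k)

/-- the coordinates -/
noncomputable def c (k : ℕ) (n : ℤ) : ℂ :=
  (2 : ℂ) ^ k * (Complex.exp (Complex.I * ((2 * Real.pi * n / h k : ℝ) : ℂ)) - 1)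

lemma h_pos (k : ℕ) : (0 : ℝ) < h k := by
  unfold h
  positivity

lemma norm_c_le (k : ℕ) (n : ℤ) : ‖c k n‖ ≤ 2 ^ k * |2 * Real.pi * n / h k| := by
  unfold c
  rw [norm_mul, norm_pow]
  have h1 : ‖(2 : ℂ)‖ = 2 := by simp
  rw [h1]
  gcongr
  have := Real.norm_exp_I_mul_ofReal_sub_one_le (x := 2 * Real.pi * n / h k)
  rwa [Real.norm_eq_abs] at this

lemma norm_c_le' (k : ℕ) (n : ℤ) : ‖c k n‖ ≤ 7 * |(n : ℝ)| * (1 / 2) ^ k := by
  refine (norm_c_le k n).trans ?_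
  rw [abs_div, abs_mul, abs_of_pos (h_pos k), abs_of_pos (by positivity : 0 < 2 * Real.pi)]
  have h1 : (4 : ℝ) ^ k ≤ h k := by
    unfold h
    push_cast
    calc (4 : ℝ) ^ k = 2 ^ (2 * k) := by rw [pow_mul]; norm_num
      _ ≤ 2 ^ (k ^ 2 + 4 * k) := pow_le_pow_right₀ (by norm_num) (by nlinarith)
  have h2 : 2 * Real.pi ≤ 7 := by
    have := Real.pi_lt_d2
    linarith
  have h3 : (2 : ℝ) ^ k * (1 / 4) ^ k = (1 / 2) ^ k := by
    rw [← mul_pow]; norm_num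
  rw [← h3]
  have h4 : 2 * Real.pi * |(n : ℝ)| / h k ≤ 7 * |(n : ℝ)| * (1 / 4) ^ k := by
    rw [div_le_iff₀ (h_pos k)]
    have h5 : 1 ≤ (1 / 4 : ℝ) ^ k * h k := by
      rw [one_div, inv_pow, inv_mul_eq_div, one_le_div (by positivity)]
      exact h1
    have h6 : 0 ≤ |(n : ℝ)| := abs_nonneg _
    calc 2 * Real.pi * |(n : ℝ)| ≤ 7 * |(n : ℝ)| * 1 := by nlinarith
      _ ≤ 7 * |(n : ℝ)| * ((1 / 4 : ℝ) ^ k * h k) := by gcongr
      _ = _ := by ring
  calc 2 ^ k * (2 * Real.pi * |(n : ℝ)| / h k) ≤ 2 ^ k * (7 * |(n : ℝ)| * (1 / 4) ^ k) := by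
        gcongr
    _ = _ := by ring

lemma memlp (n : ℤ) : Memℓp (fun k => c k n) 2 := by
  apply memℓp_gen
  have h1 : Summable (fun k : ℕ => (7 * |(n : ℝ)|) ^ 2 * (1 / 4 : ℝ) ^ k) :=
    (summable_geometric_of_lt_one (by norm_num) (by norm_num)).mul_left _
  refine Summable.of_nonneg_of_le (fun k => by positivity) (fun k => ?_) h1
  have h2 : (2 : ENNReal).toReal = (2 : ℕ) := by norm_num
  rw [h2, Real.rpow_natCast]
  have h3 := norm_c_le' k n
  calc ‖c k n‖ ^ 2 ≤ (7 * |(n : ℝ)| * (1 / 2) ^ k) ^ 2 := by gcongr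
    _ = (7 * |(n : ℝ)|) ^ 2 * (1 / 4 : ℝ) ^ k := by
      rw [mul_pow, ← pow_mul, mul_comm k 2, pow_mul]
      norm_num

/-- the orbit -/
noncomputable def x (n : ℤ) : Hs := ⟨fun k => c k n, memlp n⟩

lemma x_apply (n : ℤ) (k : ℕ) : (x n : ∀ _ : ℕ, ℂ) k = c k n := rfl

lemma norm_sq (f : Hs) : ‖f‖ ^ 2 = ∑' k, ‖(f : ∀ _ : ℕ, ℂ) k‖ ^ 2 := by
  have h1 := lp.norm_rpow_eq_tsum (p := 2) (by norm_num) f
  have h2 : (2 : ENNReal).toReal = (2 : ℕ) := by norm_num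
  rw [h2, Real.rpow_natCast] at h1
  rw [h1]
  congr 1
  funext k
  rw [Real.rpow_natCast]

lemma c_sub (k : ℕ) (m n : ℤ) : ‖c k m - c k n‖ = ‖c k (m - n)‖ := by
  have e : c k m - c k n = Complex.exp (Complex.I * ((2 * Real.pi * n / h k : ℝ) : ℂ)) *
      c k (m - n) := by
    unfold c
    have : Complex.exp (Complex.I * ((2 * Real.pi * m / h k : ℝ) : ℂ)) =
        Complex.exp (Complex.I * ((2 * Real.pi * n / h k : ℝ) : ℂ)) *
        Complex.exp (Complex.I * ((2 * Real.pi * ((m - n : ℤ) : ℝ) / h k : ℝ) : ℂ)) := by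
      rw [← Complex.exp_add]
      congr 1
      push_cast
      ring
    rw [this]
    ring
  rw [e, norm_mul]
  have : ‖Complex.exp (Complex.I * ((2 * Real.pi * n / h k : ℝ) : ℂ))‖ = 1 := by
    rw [mul_comm]
    exact Complex.norm_exp_ofReal_mul_I _
  rw [this, one_mul]

lemma x_sub (m n : ℤ) : ‖x m - x n‖ = ‖x (m - n)‖ := by
  have h1 : ‖x m - x n‖ ^ 2 = ‖x (m - n)‖ ^ 2 := by
    rw [norm_sq, norm_sq]
    congr 1
    funext k
    rw [lp.coeFn_sub, Pi.sub_apply, x_apply, x_apply, x_apply, c_sub]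
  exact (pow_left_inj₀ (norm_nonneg _) (norm_nonneg _) two_ne_zero).1 h1

lemma x_zero : x 0 = 0 := by
  have h1 := x_sub 0 0
  rw [sub_self, norm_zero, sub_self] at h1
  exact norm_eq_zero.1 h1.symm

/-- the orbit is unbounded -/
lemma unbounded (R : ℝ) : ∃ n : ℕ, R ≤ ‖x n‖ := by
  obtain ⟨k, hk⟩ := pow_unbounded_of_one_lt R (one_lt_two)
  refine ⟨2 ^ ((k + 1) ^ 2 + 4 * (k + 1) - 1), ?_⟩
  have h1 := lp.norm_apply_le_norm (p := 2) (by norm_num)
    (x ((2 ^ ((k + 1) ^ 2 + 4 * (k + 1) - 1) : ℕ) : ℤ)) (k + 1)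
  refine le_trans ?_ h1
  rw [x_apply]
  unfold c
  have e : (2 * Real.pi * (((2 ^ ((k + 1) ^ 2 + 4 * (k + 1) - 1) : ℕ) : ℤ) : ℝ) / h (k + 1) : ℝ) =
      Real.pi := by
    unfold h
    have : (2 : ℝ) ^ ((k + 1) ^ 2 + 4 * (k + 1)) = 2 * 2 ^ ((k + 1) ^ 2 + 4 * (k + 1) - 1) := by
      rw [← pow_succ']
      congr 1
    push_cast
    rw [this]
    field_simp
  rw [e, mul_comm Complex.I, Complex.exp_pi_mul_I, norm_mul, norm_pow]
  have h2 : ‖(2 : ℂ)‖ = 2 := by simp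
  have h3 : ‖(-1 - 1 : ℂ)‖ = 2 := by norm_num
  rw [h2, h3]
  have h4 : (0 : ℝ) < 2 ^ k := by positivity
  rw [pow_succ]
  nlinarith

lemma c_eq_zero (k K : ℕ) (hk : k ≤ K) : c k (h K : ℤ) = 0 := by
  obtain ⟨d, hd⟩ : ∃ d : ℕ, h K = h k * d :=
    pow_dvd_pow 2 (by nlinarith : k ^ 2 + 4 * k ≤ K ^ 2 + 4 * K)
  unfold c
  have e : Complex.I * ((2 * Real.pi * ((h K : ℤ) : ℝ) / h k : ℝ) : ℂ) =
      d * (2 * Real.pi * Complex.I) := by
    have : (2 * Real.pi * ((h K : ℤ) : ℝ) / h k : ℝ) = d * (2 * Real.pi) := by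
      have hp := h_pos k
      rw [hd]
      push_cast
      field_simp
    rw [this]
    push_cast
    ring
  rw [e, Complex.exp_nat_mul_two_pi_mul_I, sub_self, mul_zero]

lemma c_small (k K : ℕ) : ‖c k (h K : ℤ)‖ ≤ (1 / 2) ^ k := by
  rcases le_or_gt k K with hk | hk
  · rw [c_eq_zero k K hk, norm_zero]
    positivity
  · refine (norm_c_le k _).trans ?_
    rw [abs_div, abs_mul, abs_of_pos (h_pos k), abs_of_pos (by positivity : 0 < 2 * Real.pi)]
    have h2 : 2 * Real.pi ≤ 8 := by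
      have := Real.pi_lt_d2
      linarith
    have h3 : (h K : ℝ) * (8 * 4 ^ k) ≤ h k := by
      unfold h
      have : (8 * 4 ^ k : ℝ) = 2 ^ (2 * k + 3) := by
        rw [pow_add, pow_mul]; norm_num; ring
      rw [this]
      push_cast
      rw [← pow_add]
      apply pow_le_pow_right₀ (by norm_num)
      nlinarith
    have h4 : |(((h K : ℕ) : ℤ) : ℝ)| = h K := by
      rw [Int.cast_natCast]
      exact abs_of_pos (h_pos K)
    rw [h4]
    rw [mul_div_assoc', div_le_iff₀ (h_pos k)]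
    have h5 : (1 / 2 : ℝ) ^ k * (h K * (8 * 4 ^ k)) = 2 ^ k * (8 * h K) := by
      have : (1 / 2 : ℝ) ^ k * 4 ^ k = 2 ^ k := by rw [← mul_pow]; norm_num
      linear_combination (8 * (h K : ℝ)) * this
    calc 2 ^ k * (2 * Real.pi * (h K : ℝ)) ≤ 2 ^ k * (8 * h K) := by
          have := (h_pos K).le
          gcongr
      _ = (1 / 2 : ℝ) ^ k * (h K * (8 * 4 ^ k)) := h5.symm
      _ ≤ (1 / 2 : ℝ) ^ k * h k := by gcongr

/-- recurrence -/
lemma recurrent : Tendsto (fun K : ℕ => ‖x (h K : ℤ)‖) atTop (𝓝 0) := by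
  have h1 : Tendsto (fun K : ℕ => ∑' k, ‖c k (h K : ℤ)‖ ^ 2) atTop (𝓝 (∑' _ : ℕ, (0 : ℝ))) := by
    apply tendsto_tsum_of_dominated_convergence (bound := fun k : ℕ => (1 / 4 : ℝ) ^ k)
      (summable_geometric_of_lt_one (by norm_num) (by norm_num))
    · intro k
      apply tendsto_const_nhds.congr'
      filter_upwards [eventually_ge_atTop k] with K hK
      rw [c_eq_zero k K hK, norm_zero]
      norm_num
    · filter_upwards with K k
      rw [Real.norm_of_nonneg (by positivity)]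
      calc ‖c k (h K : ℤ)‖ ^ 2 ≤ ((1 / 2) ^ k) ^ 2 := by
            have := c_small k K
            gcongr
        _ = (1 / 4 : ℝ) ^ k := by
            rw [← pow_mul, mul_comm k 2, pow_mul]
            norm_num
  rw [tsum_zero] at h1
  have h2 : (fun K : ℕ => ‖x (h K : ℤ)‖) = fun K : ℕ => Real.sqrt (∑' k, ‖c k (h K : ℤ)‖ ^ 2) := by
    funext K
    have := norm_sq (x (h K : ℤ))
    simp only [x_apply] at this
    rw [← this, Real.sqrt_sq (norm_nonneg _)]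
  rw [h2]
  have := (Real.continuous_sqrt.tendsto 0).comp h1
  rwa [Real.sqrt_zero] at this

lemma h_ge (k : ℕ) : k ≤ h k := by
  unfold h
  calc k ≤ 2 ^ k := Nat.lt_two_pow_self.le
    _ ≤ _ := Nat.pow_le_pow_right (by norm_num) (by nlinarith)

end Pool.Agent.TH636.Edel
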