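import Mathlib

/-!
# Few patterns of slowly varying radial functions in a Hilbert space

For points `p i` (`i` in a finite set with `N` elements) of a real inner product space and
`Φ s = sin (log (1 + s))`, the vectors `(Φ (‖u - p i‖ ^ 2))_i`, `u` in the space, contain only
polynomially many (in `N`) pairwise `η`-separated ones.
-/

set_option autoImplicit false

namespace Pool.Agent.TH636.Percep

open scoped RealInnerProductSpace

variable {H : Type} [NormedAddCommGroup H] [InnerProductSpace ℝ H]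

/-- one step of the walk -/
def stepVec {ι : Type} (q : ι → H) (η₁ : ℝ) : Option (ι × Bool) → H
  | none => 0
  | some (i, b) => (if b then η₁ else -η₁) • q i

/-- perceptron lemma -/
lemma percep {ι : Type} (q : ι → H) (η₁ Q : ℝ) (hη : 0 < η₁) (hQ : 0 < Q) (S : Set ι)
    (hq : ∀ i ∈ S, ‖q i‖ ^ 2 ≤ Q) (T : ℕ) : ∀ (v w₀ : H), ‖w₀ - v‖ ^ 2 ≤ T * (η₁ ^ 2 * Q) →
    ∃ σ : Fin T → Option (ι × Bool), ∀ i ∈ S,
      |⟪w₀ + ∑ t, stepVec q η₁ (σ t) - v, q i⟫| ≤ η₁ * Q := by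
  induction T with
  | zero =>
    intro v w₀ h
    have h0 : ‖w₀ - v‖ ^ 2 ≤ 0 := by simpa using h
    have h1 : w₀ - v = 0 := by
      have : ‖w₀ - v‖ = 0 := by nlinarith [norm_nonneg (w₀ - v)]
      exact norm_eq_zero.1 this
    refine ⟨fun _ => none, fun i _ => ?_⟩
    simp only [Finset.univ_eq_empty, Finset.sum_empty, add_zero, h1, inner_zero_left, abs_zero]
    positivity
  | succ T ih =>
    intro v w₀ h
    by_cases hall : ∀ i ∈ S, |⟪w₀ - v, q i⟫| ≤ η₁ * Q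
    · refine ⟨fun _ => none, fun i hi => ?_⟩
      have : ∑ t : Fin (T + 1), stepVec q η₁ ((fun _ => none : Fin (T + 1) → Option (ι × Bool)) t)
          = 0 := Finset.sum_eq_zero (fun _ _ => rfl)
      rw [this, add_zero]
      exact hall i hi
    · push Not at hall
      obtain ⟨i, hi, hlt⟩ := hall
      -- the new point
      obtain ⟨b, hb⟩ : ∃ b : Bool, ‖(w₀ + stepVec q η₁ (some (i, b))) - v‖ ^ 2 ≤
          T * (η₁ ^ 2 * Q) := by
        have key : ∀ c : ℝ, |c| = η₁ → c * ⟪w₀ - v, q i⟫ = -(η₁ * |⟪w₀ - v, q i⟫|) →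
            ‖(w₀ + c • q i) - v‖ ^ 2 ≤ T * (η₁ ^ 2 * Q) := by
          intro c hc1 hc2
          have e1 : (w₀ + c • q i) - v = (w₀ - v) + c • q i := by abel
          rw [e1, @norm_add_sq_real, inner_smul_right, hc2, norm_smul, Real.norm_eq_abs, hc1,
            mul_pow]
          have h2 := hq i hi
          push_cast at h
          nlinarith [mul_le_mul_of_nonneg_left h2 (sq_nonneg η₁),
            mul_lt_mul_of_pos_left hlt hη]
        rcases le_or_gt 0 ⟪w₀ - v, q i⟫ with hs | hs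
        · refine ⟨false, ?_⟩
          show ‖(w₀ + (if false = true then η₁ else -η₁) • q i) - v‖ ^ 2 ≤ _
          apply key
          · simp [abs_of_pos hη]
          · rw [abs_of_nonneg hs]; simp
        · refine ⟨true, ?_⟩
          show ‖(w₀ + (if true = true then η₁ else -η₁) • q i) - v‖ ^ 2 ≤ _
          apply key
          · simp [abs_of_pos hη]
          · rw [abs_of_neg hs]; simp
      obtain ⟨σ, hσ⟩ := ih v (w₀ + stepVec q η₁ (some (i, b))) hb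
      refine ⟨Fin.cons (some (i, b)) σ, fun k hk => ?_⟩
      have := hσ k hk
      rw [Fin.sum_univ_succ]
      simp only [Fin.cons_zero, Fin.cons_succ]
      rwa [← add_assoc]

/-- the slowly varying function -/
noncomputable def Phi (s : ℝ) : ℝ := Real.sin (Real.log (1 + s))

lemma abs_sin_sub (a b : ℝ) : |Real.sin a - Real.sin b| ≤ |a - b| := by
  have h := Real.lipschitzWith_sin.dist_le_mul a b
  simpa [Real.dist_eq] using h

lemma log_close (s t c : ℝ) (hs : 0 ≤ s) (ht : 0 ≤ t) (h1 : |s - t| ≤ c * (1 + s))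
    (h2 : |s - t| ≤ c * (1 + t)) : |Phi s - Phi t| ≤ c := by
  refine (abs_sin_sub _ _).trans ?_
  have key : ∀ a b : ℝ, 0 ≤ a → 0 ≤ b → |a - b| ≤ c * (1 + b) →
      Real.log (1 + a) - Real.log (1 + b) ≤ c := by
    intro a b ha hb h
    rw [← Real.log_div (by positivity) (by positivity)]
    have h3 := Real.log_le_sub_one_of_pos (show 0 < (1 + a) / (1 + b) by positivity)
    refine h3.trans ?_
    rw [div_sub_one (by positivity), div_le_iff₀ (by positivity)]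
    have := le_abs_self (a - b)
    linarith
  rw [abs_le]
  constructor
  · have := key t s ht hs (by rw [abs_sub_comm]; exact h1)
    linarith
  · exact key s t hs ht h2

/-- the data attached to `u` -/
structure Good {ι : Type} (p : ι → H) (K M η₁ δ : ℝ) {T : ℕ} (u : H) (i₀ i₁ : ι)
    (j : ℤ ⊕ ℤ) (σ : Fin T → Option (ι × Bool)) : Prop where
  near : ∀ i, ‖u - p i₀‖ ^ 2 ≤ ‖u - p i‖ ^ 2
  far : ∀ i, ‖p i₁ - p i₀‖ ^ 2 < ‖p i - p i₀‖ ^ 2 → K ^ 2 * (1 + ‖u - p i₀‖ ^ 2) ≤ ‖p i - p i₀‖ ^ 2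
  le : ‖p i₁ - p i₀‖ ^ 2 ≤ K ^ 2 * (1 + ‖u - p i₀‖ ^ 2)
  inl : ∀ k, j = Sum.inl k → 1 + ‖u - p i₀‖ ^ 2 ≤ M * (1 + ‖p i₁ - p i₀‖ ^ 2) ∧
    k = ⌊(1 + ‖u - p i₀‖ ^ 2) / (η₁ * (1 + ‖p i₁ - p i₀‖ ^ 2))⌋ ∧
    ∀ i, ‖p i - p i₀‖ ^ 2 ≤ ‖p i₁ - p i₀‖ ^ 2 →
      |⟪∑ t, stepVec (fun i => p i - p i₀) η₁ (σ t) - (u - p i₀), p i - p i₀⟫| ≤
        η₁ * (1 + ‖p i₁ - p i₀‖ ^ 2)
  inr : ∀ k, j = Sum.inr k → M * (1 + ‖p i₁ - p i₀‖ ^ 2) ≤ 1 + ‖u - p i₀‖ ^ 2 ∧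
    k = ⌊Phi (‖u - p i₀‖ ^ 2) / δ⌋

lemma sq_expand (u a b : H) : ‖u - a‖ ^ 2 = ‖u - b‖ ^ 2 + ‖a - b‖ ^ 2 - 2 * ⟪u - b, a - b⟫ := by
  have e : u - a = (u - b) - (a - b) := by abel
  rw [e, @norm_sub_sq_real]
  ring

lemma floor_close (a b c : ℝ) (hc : 0 < c) (h : ⌊a / c⌋ = ⌊b / c⌋) : |a - b| ≤ c := by
  have h1 := Int.abs_sub_lt_one_of_floor_eq_floor h
  rw [← sub_div, abs_div, abs_of_pos hc, div_lt_one hc] at h1
  exact h1.le

/-- far points: `Φ` at `u` is close to its value at `p i₀` -/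
lemma far_close (u a b : H) (K : ℝ) (hK : 6 ≤ K) (h : K ^ 2 * (1 + ‖u - b‖ ^ 2) ≤ ‖a - b‖ ^ 2) :
    |Phi (‖u - a‖ ^ 2) - Phi (‖a - b‖ ^ 2)| ≤ 6 / K := by
  have hK0 : (0 : ℝ) < K := by linarith
  have hin := abs_real_inner_le_norm (u - b) (a - b)
  have hs := sq_expand u a b
  set r := ‖u - b‖ with hr
  set d := ‖a - b‖ with hd
  set s := ‖u - a‖ ^ 2 with hsd
  have hs0 : 0 ≤ s := sq_nonneg _
  have hr0 : 0 ≤ r := norm_nonneg _
  have hd0 : 0 ≤ d := norm_nonneg _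
  have hKr : K * r ≤ d := by
    have : (K * r) ^ 2 ≤ d ^ 2 := by nlinarith [sq_nonneg K]
    exact (pow_le_pow_iff_left₀ (by positivity) hd0 two_ne_zero).1 this
  have h1 : r ^ 2 + 2 * (r * d) ≤ 3 * d ^ 2 / K := by
    rw [le_div_iff₀ hK0]
    nlinarith [mul_nonneg hr0 hd0, mul_nonneg hr0 hr0, mul_le_mul_of_nonneg_right hKr hd0,
      mul_le_mul_of_nonneg_right hKr hr0]
  have h2 : |s - d ^ 2| ≤ 3 * d ^ 2 / K := by
    rw [hs]
    rw [abs_le] at hin ⊢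
    constructor <;> nlinarith [sq_nonneg r]
  have h3 : 3 * d ^ 2 / K ≤ d ^ 2 / 2 := by
    rw [div_le_div_iff₀ hK0 (by norm_num)]
    nlinarith [sq_nonneg d]
  have h4 : d ^ 2 / 2 ≤ s := by
    have := (abs_le.1 h2).1
    linarith
  apply log_close _ _ _ hs0 (sq_nonneg d)
  · refine h2.trans ?_
    rw [div_mul_eq_mul_div, div_le_div_iff_of_pos_right hK0]
    linarith
  · refine h2.trans ?_
    rw [div_mul_eq_mul_div, div_le_div_iff_of_pos_right hK0]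
    nlinarith [sq_nonneg d]

/-- near points, when `u` is much farther -/
lemma near_close (u a b : H) (m D : ℝ) (hm : 1 ≤ m) (hD : ‖a - b‖ ^ 2 ≤ D)
    (hnear : ‖u - b‖ ^ 2 ≤ ‖u - a‖ ^ 2) (h : m ^ 2 * D ≤ 1 + ‖u - b‖ ^ 2) :
    |Phi (‖u - a‖ ^ 2) - Phi (‖u - b‖ ^ 2)| ≤ 3 / m := by
  have hm0 : (0 : ℝ) < m := by linarith
  have hin := abs_real_inner_le_norm (u - b) (a - b)
  have hs := sq_expand u a b
  set r := ‖u - b‖ with hr
  set d := ‖a - b‖ with hd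
  set s := ‖u - a‖ ^ 2 with hsd
  have hs0 : 0 ≤ s := sq_nonneg _
  have hr0 : 0 ≤ r := norm_nonneg _
  have hd0 : 0 ≤ d := norm_nonneg _
  have h5 : m ^ 2 * d ^ 2 ≤ 1 + r ^ 2 := le_trans (by nlinarith [sq_nonneg m]) h
  have h1 : d ^ 2 + 2 * (r * d) ≤ 3 * (1 + r ^ 2) / m := by
    rw [le_div_iff₀ hm0]
    have e1 : d ^ 2 * m ≤ 1 + r ^ 2 := by nlinarith [sq_nonneg d]
    have e2 : 2 * (r * d) * m ≤ r ^ 2 + m ^ 2 * d ^ 2 := by nlinarith [sq_nonneg (r - m * d)]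
    nlinarith
  have h2 : |s - r ^ 2| ≤ 3 * (1 + r ^ 2) / m := by
    rw [hs]
    rw [abs_le] at hin ⊢
    constructor <;> nlinarith [sq_nonneg d]
  apply log_close _ _ _ hs0 (sq_nonneg r)
  · refine h2.trans ?_
    rw [div_mul_eq_mul_div, div_le_div_iff_of_pos_right hm0]
    linarith
  · refine h2.trans ?_
    rw [div_mul_eq_mul_div]

/-- near points, comparable scale -/
lemma mid_close (u v a b : H) (K η₁ D k : ℝ) (hK : 1 ≤ K) (hη : 0 < η₁)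
    (hD : D ≤ 2 * K ^ 2 * (1 + ‖u - b‖ ^ 2)) (hD' : D ≤ 2 * K ^ 2 * (1 + ‖v - b‖ ^ 2))
    (hnu : ‖u - b‖ ^ 2 ≤ ‖u - a‖ ^ 2) (hnv : ‖v - b‖ ^ 2 ≤ ‖v - a‖ ^ 2)
    (h1 : |‖u - b‖ ^ 2 - ‖v - b‖ ^ 2| ≤ η₁ * D)
    (h2 : |⟪(u - b) - (v - b), a - b⟫| ≤ 2 * (η₁ * D)) (hk : 10 * η₁ * K ^ 2 ≤ k) :
    |Phi (‖u - a‖ ^ 2) - Phi (‖v - a‖ ^ 2)| ≤ k := by
  have hsu := sq_expand u a b
  have hsv := sq_expand v a b
  rw [inner_sub_left] at h2
  have h3 : |‖u - a‖ ^ 2 - ‖v - a‖ ^ 2| ≤ 5 * (η₁ * D) := by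
    rw [hsu, hsv]
    rw [abs_le] at h1 h2 ⊢
    constructor <;> linarith [h1.1, h1.2, h2.1, h2.2]
  have hk0 : ∀ z w : ℝ, w ≤ z → 0 ≤ w → D ≤ 2 * K ^ 2 * (1 + w) → 5 * (η₁ * D) ≤ k * (1 + z) := by
    intro z w hzw hw hDz
    have e1 : η₁ * D ≤ η₁ * (2 * K ^ 2 * (1 + w)) := mul_le_mul_of_nonneg_left hDz hη.le
    have e2 : 10 * η₁ * K ^ 2 * (1 + w) ≤ k * (1 + w) :=
      mul_le_mul_of_nonneg_right hk (by linarith)
    have hk1 : 0 ≤ k := le_trans (by positivity) hk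
    have e3 : k * (1 + w) ≤ k * (1 + z) := mul_le_mul_of_nonneg_left (by linarith) hk1
    nlinarith
  apply log_close _ _ _ (sq_nonneg _) (sq_nonneg _)
  · exact h3.trans (hk0 _ _ hnu (sq_nonneg _) hD)
  · exact h3.trans (hk0 _ _ hnv (sq_nonneg _) hD')

/-- points with the same code have close values -/
lemma same_code {ι : Type} (p : ι → H) (K m η₁ δ η : ℝ) {T : ℕ} (u v : H) (i₀ i₁ : ι)
    (j : ℤ ⊕ ℤ) (σ : Fin T → Option (ι × Bool)) (hK : 6 ≤ K) (hm : 1 ≤ m) (hη : 0 < η₁)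
    (hδ : 0 < δ) (c1 : 12 / K < η) (c2 : 6 / m + δ < η) (c3 : 10 * η₁ * K ^ 2 < η)
    (hu : Good p K (m ^ 2) η₁ δ u i₀ i₁ j σ) (hv : Good p K (m ^ 2) η₁ δ v i₀ i₁ j σ) (i : ι) :
    |Phi (‖u - p i‖ ^ 2) - Phi (‖v - p i‖ ^ 2)| < η := by
  rcases lt_or_ge (‖p i₁ - p i₀‖ ^ 2) (‖p i - p i₀‖ ^ 2) with h | h
  · have h1 := far_close u (p i) (p i₀) K hK (hu.far i h)
    have h2 := far_close v (p i) (p i₀) K hK (hv.far i h)
    have h3 := abs_sub_le (Phi (‖u - p i‖ ^ 2)) (Phi (‖p i - p i₀‖ ^ 2)) (Phi (‖v - p i‖ ^ 2))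
    rw [abs_sub_comm (Phi (‖p i - p i₀‖ ^ 2))] at h3
    have h4 : 6 / K + 6 / K = 12 / K := by ring
    linarith
  · rcases j with k | k
    · obtain ⟨-, hku, hwu⟩ := hu.inl k rfl
      obtain ⟨-, hkv, hwv⟩ := hv.inl k rfl
      have hDpos : 0 < η₁ * (1 + ‖p i₁ - p i₀‖ ^ 2) := by positivity
      have h1 := floor_close _ _ _ hDpos (hku.symm.trans hkv)
      have h2 : |⟪(u - p i₀) - (v - p i₀), p i - p i₀⟫| ≤
          2 * (η₁ * (1 + ‖p i₁ - p i₀‖ ^ 2)) := by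
        have a1 := hwu i h
        have a2 := hwv i h
        rw [inner_sub_left] at a1 a2 ⊢
        rw [abs_le] at a1 a2 ⊢
        constructor <;> linarith [a1.1, a1.2, a2.1, a2.2]
      have hD : ∀ w : H, ‖p i₁ - p i₀‖ ^ 2 ≤ K ^ 2 * (1 + ‖w - p i₀‖ ^ 2) →
          1 + ‖p i₁ - p i₀‖ ^ 2 ≤ 2 * K ^ 2 * (1 + ‖w - p i₀‖ ^ 2) := by
        intro w hw
        nlinarith [sq_nonneg ‖w - p i₀‖, sq_nonneg K]
      refine lt_of_le_of_lt (mid_close u v (p i) (p i₀) K η₁ _ _ (by linarith) hη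
        (hD u hu.le) (hD v hv.le) (hu.near i) (hv.near i) ?_ h2 le_rfl) c3
      have e : (1 + ‖u - p i₀‖ ^ 2) - (1 + ‖v - p i₀‖ ^ 2) = ‖u - p i₀‖ ^ 2 - ‖v - p i₀‖ ^ 2 := by
        ring
      rwa [e] at h1
    · obtain ⟨hMu, hku⟩ := hu.inr k rfl
      obtain ⟨hMv, hkv⟩ := hv.inr k rfl
      have h1 := floor_close _ _ _ hδ (hku.symm.trans hkv)
      have hn : ∀ w : H, m ^ 2 * (1 + ‖p i₁ - p i₀‖ ^ 2) ≤ 1 + ‖w - p i₀‖ ^ 2 →
          ‖w - p i₀‖ ^ 2 ≤ ‖w - p i‖ ^ 2 →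
          |Phi (‖w - p i‖ ^ 2) - Phi (‖w - p i₀‖ ^ 2)| ≤ 3 / m := by
        intro w hw hw2
        exact near_close w (p i) (p i₀) m (1 + ‖p i₁ - p i₀‖ ^ 2) hm (by linarith) hw2 hw
      have h2 := hn u hMu (hu.near i)
      have h3 := hn v hMv (hv.near i)
      have h4 : 3 / m + 3 / m = 6 / m := by ring
      rw [abs_le] at h1 h2 h3
      rw [abs_lt]
      constructor <;> linarith [h1.1, h1.2, h2.1, h2.2, h3.1, h3.2]

lemma Phi_abs (s : ℝ) : |Phi s| ≤ 1 := Real.abs_sin_le_one _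

/-- existence of a code in a finite set -/
lemma exists_good {ι : Type} [Finite ι] [Nonempty ι] (p : ι → H) (K m η₁ δ : ℝ) (T : ℕ) (B : ℤ)
    (hK : 1 ≤ K) (hη : 0 < η₁) (hδ : 0 < δ) (hT : m ^ 2 ≤ T * η₁ ^ 2)
    (hB1 : m ^ 2 / η₁ ≤ B) (hB2 : 1 / δ + 1 ≤ B) (u : H) :
    ∃ (i₀ i₁ : ι) (j : ℤ ⊕ ℤ) (σ : Fin T → Option (ι × Bool)),
      j ∈ (Finset.Icc 0 B).disjSum (Finset.Icc (-B) B) ∧ Good p K (m ^ 2) η₁ δ u i₀ i₁ j σ := by
  obtain ⟨i₀, hi₀⟩ := Finite.exists_min (fun i => ‖u - p i‖ ^ 2)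
  obtain ⟨i₁, hi₁, hmax⟩ := Set.exists_max_image
    {i | ‖p i - p i₀‖ ^ 2 ≤ K ^ 2 * (1 + ‖u - p i₀‖ ^ 2)} (fun i => ‖p i - p i₀‖ ^ 2)
    (Set.toFinite _) ⟨i₀, by
      show ‖p i₀ - p i₀‖ ^ 2 ≤ K ^ 2 * (1 + ‖u - p i₀‖ ^ 2)
      rw [sub_self, norm_zero, zero_pow two_ne_zero]
      positivity⟩
  have hfar : ∀ i, ‖p i₁ - p i₀‖ ^ 2 < ‖p i - p i₀‖ ^ 2 →
      K ^ 2 * (1 + ‖u - p i₀‖ ^ 2) ≤ ‖p i - p i₀‖ ^ 2 := by
    intro i hi
    by_contra hc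
    exact absurd (hmax i (not_le.1 hc).le) (not_le.2 hi)
  have hDpos : 0 < 1 + ‖p i₁ - p i₀‖ ^ 2 := by positivity
  rcases le_or_gt (1 + ‖u - p i₀‖ ^ 2) (m ^ 2 * (1 + ‖p i₁ - p i₀‖ ^ 2)) with h | h
  · obtain ⟨σ, hσ⟩ := percep (fun i => p i - p i₀) η₁ (1 + ‖p i₁ - p i₀‖ ^ 2) hη hDpos
      {i | ‖p i - p i₀‖ ^ 2 ≤ ‖p i₁ - p i₀‖ ^ 2}
      (fun i hi => by
        have : ‖p i - p i₀‖ ^ 2 ≤ ‖p i₁ - p i₀‖ ^ 2 := hi
        linarith) T (u - p i₀) 0 (by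
        rw [zero_sub, norm_neg]
        have e1 : m ^ 2 * (1 + ‖p i₁ - p i₀‖ ^ 2) ≤ T * η₁ ^ 2 * (1 + ‖p i₁ - p i₀‖ ^ 2) :=
          mul_le_mul_of_nonneg_right hT hDpos.le
        linarith)
    refine ⟨i₀, i₁, Sum.inl ⌊(1 + ‖u - p i₀‖ ^ 2) / (η₁ * (1 + ‖p i₁ - p i₀‖ ^ 2))⌋, σ, ?_,
      ⟨hi₀, hfar, hi₁, ?_, ?_⟩⟩
    · rw [Finset.inl_mem_disjSum, Finset.mem_Icc]
      constructor
      · exact Int.floor_nonneg.2 (by positivity)
      · have e2 : (1 + ‖u - p i₀‖ ^ 2) / (η₁ * (1 + ‖p i₁ - p i₀‖ ^ 2)) ≤ B := by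
          refine le_trans ?_ hB1
          rw [div_le_div_iff₀ (by positivity) hη]
          nlinarith
        have e3 := (Int.floor_le ((1 + ‖u - p i₀‖ ^ 2) / (η₁ * (1 + ‖p i₁ - p i₀‖ ^ 2)))).trans e2
        exact_mod_cast e3
    · intro k hk
      refine ⟨h, (Sum.inl.inj hk).symm, fun i hi => ?_⟩
      have := hσ i hi
      rwa [zero_add] at this
    · intro k hk
      exact absurd hk (by simp)
  · refine ⟨i₀, i₁, Sum.inr ⌊Phi (‖u - p i₀‖ ^ 2) / δ⌋, fun _ => none, ?_,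
      ⟨hi₀, hfar, hi₁, ?_, ?_⟩⟩
    · rw [Finset.inr_mem_disjSum, Finset.mem_Icc]
      have h1 := abs_le.1 (Phi_abs (‖u - p i₀‖ ^ 2))
      have e1 : Phi (‖u - p i₀‖ ^ 2) / δ ≤ 1 / δ := div_le_div_of_nonneg_right h1.2 hδ.le
      have e2 : -(1 / δ) ≤ Phi (‖u - p i₀‖ ^ 2) / δ := by
        rw [← neg_div]
        exact div_le_div_of_nonneg_right h1.1 hδ.le
      constructor
      · rw [Int.le_floor]
        push_cast
        linarith
      · have e3 := Int.floor_le (Phi (‖u - p i₀‖ ^ 2) / δ)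
        have : ((⌊Phi (‖u - p i₀‖ ^ 2) / δ⌋ : ℤ) : ℝ) ≤ B := by linarith
        exact_mod_cast this
    · intro k hk
      exact absurd hk (by simp)
    · intro k hk
      exact ⟨h.le, (Sum.inr.inj hk).symm⟩

/-- the main counting lemma -/
theorem count (η : ℝ) (hη : 0 < η) : ∃ C D : ℕ, ∀ (H : Type) [NormedAddCommGroup H]
    [InnerProductSpace ℝ H] (ι : Type) [Fintype ι] [Nonempty ι] (p : ι → H) (α : Type)
    (F : Finset α) (u : α → H),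
    (∀ x ∈ F, ∀ y ∈ F, x ≠ y → ∃ i, η ≤ |Phi (‖u x - p i‖ ^ 2) - Phi (‖u y - p i‖ ^ 2)|) →
    F.card ≤ C * (2 * Fintype.card ι + 1) ^ D := by
  classical
  set η' := min η 1 with hη'
  have hη0 : 0 < η' := lt_min hη one_pos
  have hη1 : η' ≤ 1 := min_le_right _ _
  set K : ℝ := 13 / η' with hK
  have hK13 : 13 ≤ K := by
    rw [hK, le_div_iff₀ hη0]
    linarith
  set η₁ : ℝ := η' / (13 * K ^ 2) with hη₁
  have hη₁0 : 0 < η₁ := by positivity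
  obtain ⟨T, hT⟩ := exists_nat_ge (K ^ 2 / η₁ ^ 2)
  obtain ⟨B, hB⟩ := exists_nat_ge (max (K ^ 2 / η₁) (1 / (η' / 13) + 1))
  refine ⟨(Finset.Icc (0 : ℤ) B).card + (Finset.Icc (-(B : ℤ)) B).card, T + 2, ?_⟩
  intro H _ _ ι _ _ p α F u hF
  have hT' : K ^ 2 ≤ T * η₁ ^ 2 := by
    rwa [div_le_iff₀ (by positivity)] at hT
  have hex := fun x : α => exists_good p K K η₁ (η' / 13) T (B : ℤ) (by linarith) hη₁0
    (by positivity) hT' (by
      push_cast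
      exact (le_max_left _ _).trans hB) (by
      push_cast
      exact (le_max_right _ _).trans hB) (u x)
  choose i₀ i₁ j σ hj hgood using hex
  let A : Finset (ℤ ⊕ ℤ) := (Finset.Icc (0 : ℤ) B).disjSum (Finset.Icc (-(B : ℤ)) B)
  let code : α → ι × ι × (ℤ ⊕ ℤ) × (Fin T → Option (ι × Bool)) :=
    fun x => (i₀ x, i₁ x, j x, σ x)
  let tgt : Finset (ι × ι × (ℤ ⊕ ℤ) × (Fin T → Option (ι × Bool))) :=
    Finset.univ ×ˢ Finset.univ ×ˢ A ×ˢ Finset.univ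
  have hinj : Set.InjOn code F := by
    intro x hx y hy hxy
    by_contra hne
    obtain ⟨i, hi⟩ := hF x hx y hy hne
    have e1 : i₀ x = i₀ y := congrArg (fun c => c.1) hxy
    have e2 : i₁ x = i₁ y := congrArg (fun c => c.2.1) hxy
    have e3 : j x = j y := congrArg (fun c => c.2.2.1) hxy
    have e4 : σ x = σ y := congrArg (fun c => c.2.2.2) hxy
    have gx := hgood x
    have gy := hgood y
    rw [← e1, ← e2, ← e3, ← e4] at gy
    have hlt := same_code p K K η₁ (η' / 13) η' (u x) (u y) (i₀ x) (i₁ x) (j x) (σ x)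
      (by linarith) (by linarith) hη₁0 (by positivity) ?_ ?_ ?_ gx gy i
    · have := min_le_left η 1
      linarith
    · rw [hK, div_div_eq_mul_div]
      linarith
    · rw [hK, div_div_eq_mul_div]
      linarith
    · rw [hη₁]
      have : 10 * (η' / (13 * K ^ 2)) * K ^ 2 = 10 / 13 * η' := by
        field_simp
      rw [this]
      linarith
  have hmaps : Set.MapsTo code F tgt := by
    intro x _
    simp only [tgt, code, Finset.coe_product, Set.mem_prod, Finset.coe_univ, Set.mem_univ,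
      true_and, and_true, Finset.mem_coe]
    exact hj x
  have hcard := Finset.card_le_card_of_injOn code hmaps hinj
  refine hcard.trans ?_
  simp only [tgt, A, Finset.card_product, Finset.card_disjSum, Finset.card_univ, Fintype.card_fun,
    Fintype.card_option, Fintype.card_prod, Fintype.card_bool, Fintype.card_fin]
  set N := Fintype.card ι with hN
  set E := (Finset.Icc (0 : ℤ) B).card + (Finset.Icc (-(B : ℤ)) B).card with hE
  have h1 : N ≤ 2 * N + 1 := by omega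
  have h2 : N * 2 + 1 = 2 * N + 1 := by ring
  rw [h2]
  calc N * (N * (E * (2 * N + 1) ^ T)) ≤ (2 * N + 1) * ((2 * N + 1) * (E * (2 * N + 1) ^ T)) := by
        gcongr
    _ = E * (2 * N + 1) ^ (T + 2) := by ring

end Pool.Agent.TH636.Percep
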