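import Pool.Agent.H326R2.Pi.Top

/-!
# Restricted denominators for `π`: the abstract step
-/

open Filter

namespace Pool.Agent.TH636.PiR

/-- if `T * r * q` is an integer and `J = q r + p k` is not zero then `1 ≤ T |J|` -/
lemma one_le_of_ne (T : ℕ) (hT : 0 < T) (k p : ℤ) (q : ℕ) (r : ℚ) (b : ℤ)
    (hb : (T : ℚ) * (r * q) = b)
    (hJ : (q : ℝ) * (r : ℝ) + p * k ≠ 0) : (1 : ℝ) ≤ T * |(q : ℝ) * (r : ℝ) + p * k| := by
  have hb' : (T : ℝ) * ((r : ℝ) * q) = b := by exact_mod_cast congrArg (fun t : ℚ => (t : ℝ)) hb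
  have e : (T : ℝ) * ((q : ℝ) * (r : ℝ) + p * k) = ((b + T * p * k : ℤ) : ℝ) := by
    push_cast
    rw [← hb']
    ring
  have hT' : (0 : ℝ) < T := by exact_mod_cast hT
  have h2 : ((b + T * p * k : ℤ) : ℝ) ≠ 0 := by
    rw [← e]
    exact mul_ne_zero hT'.ne' hJ
  have h3 : (b + T * p * k : ℤ) ≠ 0 := by exact_mod_cast h2
  have h4 := Int.one_le_abs h3
  rw [← abs_of_pos hT', ← abs_mul, e]
  exact_mod_cast h4

/-- the abstract step: `G` is a common divisor of `q` and of all denominators `D m`, `m ≥ n` -/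
lemma core (θ : ℝ) (hθ : Irrational θ) (k : ℕ → ℤ) (r : ℕ → ℚ) (T : ℕ → ℕ) (E : ℕ → ℝ)
    (n q : ℕ) (p : ℤ) (hq : 0 < q) (hk : ∀ m, 0 < k m) (hT : ∀ m, n ≤ m → 0 < T m)
    (hint : ∀ m, n ≤ m → ∃ b : ℤ, (T m : ℚ) * (r m * q) = b)
    (hE : ∀ m, n ≤ m → |(k m : ℝ) * θ + r m| ≤ E m) (hE0 : Tendsto E atTop (nhds 0))
    (hsm : ∀ m, n ≤ m → (T m : ℝ) * (q * E m) ≤ 1 / 4)
    (hst : ∀ m, n ≤ m → (T (m + 1) : ℝ) * (k (m + 1) / k m * (q * E m)) ≤ 1 / 4) :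
    1 / 2 ≤ (T n : ℝ) * (k n * |q * θ - p|) := by
  have hqpos : (0 : ℝ) < q := by exact_mod_cast hq
  have hk' : ∀ m, (0 : ℝ) < k m := fun m => by exact_mod_cast hk m
  obtain ⟨δ, hδ⟩ : ∃ δ : ℝ, δ = q * θ - p := ⟨_, rfl⟩
  rw [← hδ]
  set J : ℕ → ℝ := fun m => q * (r m : ℝ) + p * k m with hJ
  have hJeq : ∀ m, (k m : ℝ) * δ = q * ((k m : ℝ) * θ + r m) - J m := by
    intro m; rw [hδ, hJ]; ring
  have hδ0 : δ ≠ 0 := by
    intro h0
    have : θ = ((p / q : ℚ) : ℝ) := by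
      push_cast
      rw [eq_div_iff hqpos.ne']
      linarith
    exact hθ ⟨_, this.symm⟩
  have hone : ∀ m, n ≤ m → J m ≠ 0 → (1 : ℝ) ≤ T m * |J m| := by
    intro m hm hJm
    obtain ⟨b, hb⟩ := hint m hm
    exact one_le_of_ne (T m) (hT m hm) (k m) p q (r m) b hb hJm
  have hzero : ∀ m, n ≤ m → J m = 0 → (k m : ℝ) * |δ| ≤ q * E m := by
    intro m hm hJm
    have h1 := hJeq m
    rw [hJm, sub_zero] at h1
    rw [← abs_of_pos (hk' m), ← abs_mul, h1, abs_mul, abs_of_pos hqpos]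
    exact mul_le_mul_of_nonneg_left (hE m hm) hqpos.le
  have hup : ∀ m, n ≤ m → |J m| ≤ k m * |δ| + q * E m := by
    intro m hm
    have h1 : J m = q * ((k m : ℝ) * θ + r m) - k m * δ := by rw [hJeq m]; ring
    rw [h1]
    refine (abs_sub _ _).trans ?_
    rw [abs_mul, abs_mul, abs_of_pos hqpos, abs_of_pos (hk' m)]
    have := mul_le_mul_of_nonneg_left (hE m hm) hqpos.le
    linarith
  have hex : ∃ m, n ≤ m ∧ J m ≠ 0 := by
    by_contra hcon
    push Not at hcon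
    have hb : ∀ m ≥ n, |δ| ≤ q * E m := by
      intro m hm
      have h2 := hzero m hm (hcon m hm)
      have hk1 : (1 : ℝ) ≤ k m := by
        have := hk m
        exact_mod_cast (show (1 : ℤ) ≤ k m by omega)
      exact (le_mul_of_one_le_left (abs_nonneg _) hk1).trans h2
    have hlim : Tendsto (fun m : ℕ => (q : ℝ) * E m) atTop (nhds 0) := by
      rw [← mul_zero (q : ℝ)]
      exact hE0.const_mul _
    have hle : |δ| ≤ 0 := ge_of_tendsto hlim (eventually_atTop.mpr ⟨n, hb⟩)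
    exact hδ0 (abs_eq_zero.mp (le_antisymm hle (abs_nonneg _)))
  by_cases hJn : J n = 0
  · exfalso
    classical
    obtain ⟨m1, hm1, hmin⟩ : ∃ m1, (n ≤ m1 ∧ J m1 ≠ 0) ∧ ∀ j < m1, ¬ (n ≤ j ∧ J j ≠ 0) :=
      ⟨Nat.find hex, Nat.find_spec hex, fun j hj => Nat.find_min hex hj⟩
    obtain ⟨hnm, hJm⟩ := hm1
    have hne : n ≠ m1 := fun h => hJm (h ▸ hJn)
    obtain ⟨m, hm⟩ : ∃ m, m1 = m + 1 := ⟨m1 - 1, by omega⟩
    subst hm
    have hnm' : n ≤ m := by omega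
    have hJm0 : J m = 0 := by
      by_contra h
      exact hmin m (by omega) ⟨hnm', h⟩
    have h1 := hone (m + 1) hnm hJm
    have h2 := hup (m + 1) hnm
    have h3 := hzero m hnm' hJm0
    have h4 : (k (m + 1) : ℝ) * |δ| ≤ k (m + 1) / k m * (q * E m) := by
      rw [div_mul_eq_mul_div, le_div_iff₀ (hk' m)]
      calc (k (m + 1) : ℝ) * |δ| * k m = k (m + 1) * (k m * |δ|) := by ring
        _ ≤ k (m + 1) * (q * E m) := mul_le_mul_of_nonneg_left h3 (hk' _).le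
    have hT0 : (0 : ℝ) ≤ T (m + 1) := Nat.cast_nonneg _
    have h5 := mul_le_mul_of_nonneg_left (h2.trans (add_le_add_left h4 _)) hT0
    have h6 := hsm (m + 1) hnm
    have h7 := hst m hnm'
    rw [mul_add] at h5
    linarith
  · have h1 := hone n le_rfl hJn
    have h2 := hup n le_rfl
    have hT0 : (0 : ℝ) ≤ T n := Nat.cast_nonneg _
    have h5 := mul_le_mul_of_nonneg_left h2 hT0
    rw [mul_add] at h5
    have h6 := hsm n le_rfl
    linarith

end Pool.Agent.TH636.PiR
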