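import Pool.Agent.TH636.PiR

/-!
# Restricted denominators for `π`
-/

open Filter

namespace Pool.Agent.H326R2.Pi

open Pool.Agent

/-- the facts on the linear forms proved in the library -/
theorem facts636 : S_den ∧ S_small ∧ S_kreg ∧ S_kpos ∧ S_kup := by
  have h2 : S_two := H726R2.PiA.two_of H52R2.PiT6.S_hom_proof H409R2.Pi.s_disc
  have hterm : S_term := H837R2.PI.term T1.odd T1.low T2
  have hden : S_den := H57R2.PiT19.s_den hterm (H326R2.Pi.T5.p_good hterm H847R2.PiT4.uniq) h2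
    (H724R2.PiT9.T9 H52R2.PiT6.S_hom_proof) H930R2.Pi.T16.p_Om
  have hsmall : S_small := H303R2.PiT15.t15 H52R2.PiT12.S_prim_proof H204R2.PiT13.t13 H1R2.PiM.s_seg
  have hreg : S_kreg := H509R2.PiT11.kreg H726R2.PiA.kpos H726R2.PiA.kmul H726R2.PiA.kup
  exact ⟨hden, hsmall, hreg, H726R2.PiA.kpos, H726R2.PiA.kup⟩

end Pool.Agent.H326R2.Pi

namespace Pool.Agent.TH636.PiR

open Pool.Agent.H326R2.Pi

lemma log_lcm_lim : Tendsto (fun n : ℕ => Real.log (Nat.lcmUpto n) / n) atTop (nhds 1) := by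
  have h1 := Pool.Agent.Helper799.PNT.psi_div_tendsto.comp (tendsto_natCast_atTop_atTop (R := ℝ))
  refine h1.congr (fun n => ?_)
  simp only [Function.comp_apply]
  rw [Chebyshev.psi_eq_log_lcmUpto]

lemma lcm_pos (n : ℕ) : (0 : ℝ) < Nat.lcmUpto n := by exact_mod_cast Nat.lcmUpto_pos n

lemma lcm_both (ε : ℝ) (hε : 0 < ε) : ∀ᶠ n : ℕ in atTop,
    Real.exp ((1 - ε) * n) ≤ Nat.lcmUpto n ∧ (Nat.lcmUpto n : ℝ) ≤ Real.exp ((1 + ε) * n) := by
  have h5 := log_lcm_lim.eventually (Metric.ball_mem_nhds (1 : ℝ) hε)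
  filter_upwards [h5, eventually_gt_atTop 0] with n hn hn0
  rw [Real.dist_eq, abs_lt] at hn
  have hn1 : (0 : ℝ) < n := by exact_mod_cast hn0
  have h6 : (1 - ε) * n ≤ Real.log (Nat.lcmUpto n) := by
    rw [← le_div_iff₀ hn1]
    linarith [hn.1]
  have h7 : Real.log (Nat.lcmUpto n) ≤ (1 + ε) * n := by
    rw [← div_le_iff₀ hn1]
    linarith [hn.2]
  constructor
  · calc Real.exp ((1 - ε) * n) ≤ Real.exp (Real.log (Nat.lcmUpto n)) := Real.exp_le_exp.2 h6
      _ = Nat.lcmUpto n := Real.exp_log (lcm_pos n)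
  · calc (Nat.lcmUpto n : ℝ) = Real.exp (Real.log (Nat.lcmUpto n)) := (Real.exp_log (lcm_pos n)).symm
      _ ≤ Real.exp ((1 + ε) * n) := Real.exp_le_exp.2 h7

/-- uniform lower bound for `lcm(1..y)`, `y ≤ L` -/
lemma lcm_low (ε : ℝ) (hε : 0 < ε) : ∃ L0 : ℝ, ∀ L : ℝ, L0 ≤ L → ∀ y : ℕ, (y : ℝ) ≤ L →
    Real.exp (y - ε * L) ≤ Nat.lcmUpto y := by
  obtain ⟨N, hN⟩ := eventually_atTop.mp (lcm_both ε hε)
  refine ⟨N / ε, fun L hL y hy => ?_⟩
  rcases le_total N y with h | h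
  · refine le_trans (Real.exp_le_exp.2 ?_) (hN y h).1
    nlinarith
  · have h1 : (y : ℝ) ≤ N := by exact_mod_cast h
    have h2 : (N : ℝ) ≤ ε * L := by
      rw [div_le_iff₀ hε] at hL
      linarith
    have h3 : Real.exp (y - ε * L) ≤ 1 := Real.exp_le_one_iff.2 (by linarith)
    have h4 : (1 : ℝ) ≤ Nat.lcmUpto y := by exact_mod_cast Nat.lcmUpto_pos y
    exact h3.trans h4

lemma lcm_dvd_lcm {a b : ℕ} (h : a ≤ b) : Nat.lcmUpto a ∣ Nat.lcmUpto b := by
  apply Finset.lcm_dvd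
  intro j hj
  rw [Finset.mem_Icc] at hj
  exact Finset.dvd_lcm (f := id) (Finset.mem_Icc.mpr ⟨hj.1, hj.2.trans h⟩)

lemma lcm_dvd_of (y q : ℕ) (h : ∀ j : ℕ, 1 ≤ j → j ≤ y → j ∣ q) : Nat.lcmUpto y ∣ q := by
  apply Finset.lcm_dvd
  intro j hj
  rw [Finset.mem_Icc] at hj
  exact h j hj.1 hj.2

lemma log_bound' (ε : ℝ) (hε : 0 < ε) : ∀ᶠ n : ℕ in atTop, (1000 * (n : ℝ) ^ 2) ≤ Real.exp (ε * n) := by
  filter_upwards [log_bound ε hε] with n hn
  nlinarith [sq_nonneg (n : ℝ)]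

lemma e3 (a b c : ℝ) : Real.exp a * (Real.exp b * (16 * Real.exp c)) = 16 * Real.exp (a + (b + c)) := by
  rw [Real.exp_add, Real.exp_add]; ring

lemma e4 (a b c d : ℝ) : Real.exp a * (Real.exp b * (Real.exp c * (16 * Real.exp d)))
    = 16 * Real.exp (a + (b + (c + d))) := by
  rw [Real.exp_add, Real.exp_add, Real.exp_add]; ring

lemma e5 (a b x : ℝ) : Real.exp a * (Real.exp b * x) * Real.exp (-a - b) = x := by
  have : Real.exp a * Real.exp b * Real.exp (-a - b) = 1 := by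
    rw [← Real.exp_add, ← Real.exp_add]
    simp
  calc Real.exp a * (Real.exp b * x) * Real.exp (-a - b)
      = (Real.exp a * Real.exp b * Real.exp (-a - b)) * x := by ring
    _ = x := by rw [this, one_mul]

attribute [local irreducible] kk kap qq

theorem main : ∃ q0 : ℕ, ∀ q : ℕ, q0 ≤ q → ∀ y : ℕ, (y : ℝ) ≤ 0.612 * Real.log q →
    (∀ j : ℕ, 1 ≤ j → j ≤ y → j ∣ q) → ∀ p : ℤ,
      Real.exp (-(6.75 * (Real.log q - y))) ≤ |Real.pi - p / q| := by
  obtain ⟨hden, hsmall, ⟨g, hg0, hg, hkr⟩, hkpos, hkup⟩ := facts636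
  obtain ⟨e, he⟩ : ∃ e : ℝ, e = 0.00001 := ⟨_, rfl⟩
  have he0 : 0 < e := by rw [he]; norm_num
  -- the solutions
  obtain ⟨T0, hT0⟩ : ∃ T : ℕ, T = 1000000 := ⟨_, rfl⟩
  have hΨ : ∀ n : ℕ, ∃ Ψ : Polynomial ℚ, T0 ≤ n → Sol n (kk n) Ψ ∧
      ∃ b : ℤ, (2 ^ kap n * Nat.lcmUpto (4 * n) : ℚ) * qq n Ψ = b := by
    intro n
    by_cases hn : T0 ≤ n
    · obtain ⟨Ψ, h, b, hb⟩ := hden n (by rw [← hT0]; exact hn)
      refine ⟨Ψ, fun _ => ⟨h, Dn n * b, ?_⟩⟩
      rw [← H30R2.PiT17.Mn_mul n]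
      push_cast
      rw [← hb]
      ring
    · exact ⟨0, fun h => absurd h hn⟩
  choose Ψ hΨ using hΨ
  -- the eventual bounds
  have hall : ∀ᶠ n : ℕ in atTop, T0 ≤ n ∧ 1 ≤ n ∧
      (Nat.lcmUpto (4 * n) : ℝ) ≤ Real.exp ((1 + e) * ((4 * n : ℕ) : ℝ)) ∧
      Real.exp ((g - e) * n) ≤ kk n ∧
      (kk n : ℝ) ≤ Real.exp ((g + e) * n) ∧
      (1000 * (n : ℝ) ^ 2) ≤ Real.exp (e * n) := by
    have t4 : Tendsto (fun n : ℕ => 4 * n) atTop atTop := tendsto_id.const_mul_atTop' (by norm_num)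
    have e1 := t4.eventually (lcm_both e he0)
    filter_upwards [eventually_ge_atTop T0, eventually_ge_atTop 1, e1, hkr e he0, log_bound' e he0]
      with n h0 h1 h2 h3 h4
    exact ⟨h0, h1, h2.2, h3.1, h3.2, h4⟩
  obtain ⟨M0, hM0⟩ := eventually_atTop.mp hall
  obtain ⟨L0, hL0⟩ := lcm_low e he0
  -- large `q`
  have hlog : Tendsto (fun q : ℕ => Real.log q) atTop atTop :=
    Real.tendsto_log_atTop.comp tendsto_natCast_atTop_atTop
  have ev : ∀ᶠ q : ℕ in atTop, max L0 (max (10 * M0) 1000000) ≤ Real.log q :=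
    hlog.eventually_ge_atTop _
  obtain ⟨q0, hq0⟩ := eventually_atTop.mp ev
  refine ⟨max q0 1, fun q hq y hy hdiv p => ?_⟩
  have hqL := hq0 q (le_trans (le_max_left _ _) hq)
  have hq1 : 0 < q := lt_of_lt_of_le one_pos (le_trans (le_max_right _ _) hq)
  have hqpos : (0 : ℝ) < q := by exact_mod_cast hq1
  obtain ⟨L, hL⟩ : ∃ L, L = Real.log q := ⟨_, rfl⟩
  have hqe : Real.exp L = q := by rw [hL, Real.exp_log hqpos]
  rw [← hL] at hqL hy ⊢
  have hA : L0 ≤ L := (le_max_left _ _).trans hqL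
  have hB : 10 * (M0 : ℝ) ≤ L := ((le_max_left _ _).trans (le_max_right _ _)).trans hqL
  have hC : 1000000 ≤ L := ((le_max_right _ _).trans (le_max_right _ _)).trans hqL
  have hy0 : (0 : ℝ) ≤ y := Nat.cast_nonneg y
  have hlow := hL0 L hA y (by linarith)
  set G : ℕ := Nat.lcmUpto y with hG
  have hGpos : (0 : ℝ) < G := lcm_pos y
  have hGpos' : 0 < G := Nat.lcmUpto_pos y
  obtain ⟨q1, hq1G⟩ : G ∣ q := lcm_dvd_of y q hdiv
  -- the index
  obtain ⟨K, hK⟩ : ∃ K : ℝ, K * (2.53 - 7 * e) = 19 + (1 + e) * L - y := by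
    refine ⟨(19 + (1 + e) * L - y) / (2.53 - 7 * e), ?_⟩
    rw [div_mul_cancel₀]
    rw [he]; norm_num
  have hKe : K * 2.52993 = 19 + 1.00001 * L - y := by
    rw [he] at hK
    linarith
  have hK0 : 0 ≤ K := by linarith
  set n : ℕ := ⌈K⌉₊ with hn
  have hn1 : K ≤ n := Nat.le_ceil K
  have hn2 : (n : ℝ) < K + 1 := Nat.ceil_lt_add_one hK0
  have hnM : M0 ≤ n := by
    have : (M0 : ℝ) ≤ K := by linarith
    exact_mod_cast this.trans hn1
  have hy4 : ∀ m : ℕ, n ≤ m → y ≤ 4 * m := by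
    intro m hm
    have h1 : K ≤ m := hn1.trans (by exact_mod_cast hm)
    have : (y : ℝ) ≤ ((4 * m : ℕ) : ℝ) := by push_cast; linarith
    exact_mod_cast this
  -- the functions
  set T : ℕ → ℕ := fun m => 2 ^ kap m * (Nat.lcmUpto (4 * m) / G) with hTdef
  have hTG : ∀ m, n ≤ m → T m * G = 2 ^ kap m * Nat.lcmUpto (4 * m) := by
    intro m hm
    rw [hTdef]
    simp only
    rw [mul_assoc, Nat.div_mul_cancel (lcm_dvd_lcm (hy4 m hm))]
  have hTle : ∀ m, n ≤ m → (T m : ℝ) ≤ Real.exp ((4 + 5 * e) * m - y + e * L) := by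
    intro m hm
    obtain ⟨-, h1, h2, -, -, h3⟩ := hM0 m (hnM.trans hm)
    have h4 := kap_le m h1
    have h5 : (T m : ℝ) * G = 2 ^ kap m * Nat.lcmUpto (4 * m) := by exact_mod_cast hTG m hm
    have h6 : (T m : ℝ) * G ≤ Real.exp (e * m) * Real.exp ((1 + e) * ((4 * m : ℕ) : ℝ)) := by
      rw [h5]
      gcongr
      exact h4.trans h3
    have h7 : (T m : ℝ) * Real.exp (y - e * L) ≤ Real.exp (e * m) * Real.exp ((1 + e) * ((4 * m : ℕ) : ℝ)) := by
      refine le_trans ?_ h6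
      gcongr
    rw [← Real.exp_add] at h7
    calc (T m : ℝ) = (T m : ℝ) * Real.exp (y - e * L) * Real.exp (-(y - e * L)) := by
          rw [mul_assoc, ← Real.exp_add]; simp
      _ ≤ Real.exp (e * m + (1 + e) * ((4 * m : ℕ) : ℝ)) * Real.exp (-(y - e * L)) := by gcongr
      _ = Real.exp ((4 + 5 * e) * m - y + e * L) := by
          rw [← Real.exp_add]
          congr 1
          push_cast
          ring
  have hl64 : Real.log 64 ≤ 4.2 := by
    have : Real.log 64 = 6 * Real.log 2 := by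
      rw [show (64 : ℝ) = 2 ^ 6 by norm_num, Real.log_pow]; norm_num
    rw [this]
    have := Real.log_two_lt_d9
    linarith
  have hkR : ∀ m, (0 : ℝ) < kk m := fun m => by exact_mod_cast hkpos m
  have hcore := core Real.pi irrational_pi kk (fun m => qq m (Ψ m)) T
    (fun m => 16 * Real.exp (-(6.53 * m))) n q p hq1 hkpos
    (by
      intro m hm
      have h := hTG m hm
      rcases Nat.eq_zero_or_pos (T m) with h0 | h0
      · rw [h0, zero_mul] at h
        have : 0 < 2 ^ kap m * Nat.lcmUpto (4 * m) := Nat.mul_pos (by positivity) (Nat.lcmUpto_pos _)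
        omega
      · exact h0)
    (by
      intro m hm
      obtain ⟨h0, -⟩ := hM0 m (hnM.trans hm)
      obtain ⟨-, b, hb⟩ := hΨ m h0
      refine ⟨b * q1, ?_⟩
      have h := hTG m hm
      have h' : (T m : ℚ) * G = 2 ^ kap m * Nat.lcmUpto (4 * m) := by exact_mod_cast h
      rw [hq1G]
      push_cast
      rw [← hb, ← h']
      ring)
    (by
      intro m hm
      obtain ⟨h0, h1, -⟩ := hM0 m (hnM.trans hm)
      exact hsmall m h1 (kk m) (Ψ m) (hΨ m h0).1)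
    (by
      rw [← mul_zero (16 : ℝ)]
      apply Tendsto.const_mul
      apply Real.tendsto_exp_neg_atTop_nhds_zero.comp
      exact tendsto_natCast_atTop_atTop.const_mul_atTop (by norm_num))
    (by
      intro m hm
      have hKm : K ≤ m := hn1.trans (by exact_mod_cast hm)
      have h1 := hTle m hm
      calc (T m : ℝ) * (q * (16 * Real.exp (-(6.53 * m))))
          ≤ Real.exp ((4 + 5 * e) * m - y + e * L) * (Real.exp L * (16 * Real.exp (-(6.53 * m)))) := by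
            rw [hqe]; gcongr
        _ = 16 * Real.exp (((4 + 5 * e) * m - y + e * L) + (L + (-(6.53 * m)))) := e3 _ _ _
        _ ≤ 16 * Real.exp (-Real.log 64) := by
            gcongr
            rw [he]
            nlinarith
        _ = 1 / 4 := by rw [Real.exp_neg, Real.exp_log (by norm_num)]; norm_num)
    (by
      intro m hm
      have hKm : K ≤ m := hn1.trans (by exact_mod_cast hm)
      have h1 := hTle (m + 1) (by omega)
      obtain ⟨-, -, -, h2, -, -⟩ := hM0 m (hnM.trans hm)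
      obtain ⟨-, -, -, -, h3, -⟩ := hM0 (m + 1) (by omega)
      have h4 : (kk (m + 1) : ℝ) / kk m ≤ Real.exp ((g + e) * ((m + 1 : ℕ) : ℝ) - (g - e) * m) := by
        rw [div_le_iff₀ (hkR m)]
        calc (kk (m + 1) : ℝ) ≤ Real.exp ((g + e) * ((m + 1 : ℕ) : ℝ)) := h3
          _ = Real.exp ((g + e) * ((m + 1 : ℕ) : ℝ) - (g - e) * m) * Real.exp ((g - e) * m) := by
              rw [← Real.exp_add]; congr 1; ring
          _ ≤ _ := by gcongr
      have hr0 : (0 : ℝ) ≤ (kk (m + 1) : ℝ) / kk m := (div_pos (hkR _) (hkR _)).le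
      obtain ⟨ρ, hρ⟩ : ∃ ρ : ℝ, ρ = (kk (m + 1) : ℝ) / kk m := ⟨_, rfl⟩
      rw [← hρ] at h4 hr0 ⊢
      calc (T (m + 1) : ℝ) * (ρ * (q * (16 * Real.exp (-(6.53 * m)))))
          ≤ Real.exp ((4 + 5 * e) * ((m + 1 : ℕ) : ℝ) - y + e * L) *
            (Real.exp ((g + e) * ((m + 1 : ℕ) : ℝ) - (g - e) * m) *
              (Real.exp L * (16 * Real.exp (-(6.53 * m))))) := by
            rw [hqe]; gcongr
        _ = 16 * Real.exp (((4 + 5 * e) * ((m + 1 : ℕ) : ℝ) - y + e * L) +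
              (((g + e) * ((m + 1 : ℕ) : ℝ) - (g - e) * m) + (L + (-(6.53 * m))))) := e4 _ _ _ _
        _ ≤ 16 * Real.exp (-Real.log 64) := by
            gcongr
            rw [he]
            push_cast
            nlinarith
        _ = 1 / 4 := by rw [Real.exp_neg, Real.exp_log (by norm_num)]; norm_num)
  -- conclusion
  have hTn := hTle n le_rfl
  have hkn := hkup n
  have habs0 : (0 : ℝ) ≤ |q * Real.pi - p| := abs_nonneg _
  have h1 : 1 / 2 ≤ Real.exp ((4 + 5 * e) * n - y + e * L) * (Real.exp (10.5405 * n) * |q * Real.pi - p|) := by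
    refine hcore.trans ?_
    have hk0 := (hkR n).le
    obtain ⟨kn, hkn'⟩ : ∃ kn : ℝ, kn = kk n := ⟨_, rfl⟩
    rw [← hkn'] at hk0 hkn ⊢
    gcongr
  have h2 : |Real.pi - p / q| = |q * Real.pi - p| / q := by
    rw [← abs_of_pos hqpos, ← abs_div, abs_of_pos hqpos]
    congr 1
    field_simp
  rw [h2, le_div_iff₀ hqpos]
  have h3 : Real.exp (-Real.log 2) * Real.exp (-((4 + 5 * e) * n - y + e * L) - 10.5405 * n)
      ≤ |q * Real.pi - p| := by
    rw [Real.exp_neg (Real.log 2), Real.exp_log (by norm_num)]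
    calc (2 : ℝ)⁻¹ * Real.exp (-((4 + 5 * e) * n - y + e * L) - 10.5405 * n)
        ≤ (Real.exp ((4 + 5 * e) * n - y + e * L) * (Real.exp (10.5405 * n) * |q * Real.pi - p|)) *
          Real.exp (-((4 + 5 * e) * n - y + e * L) - 10.5405 * n) := by
          gcongr
          linarith
      _ = |q * Real.pi - p| := e5 _ _ _
  refine le_trans ?_ h3
  have hqe' : (q : ℝ) = Real.exp L := hqe.symm
  rw [hqe', ← Real.exp_add, ← Real.exp_add]
  apply Real.exp_le_exp.2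
  have hl2 := Real.log_two_lt_d9
  rw [he]
  nlinarith

end Pool.Agent.TH636.PiR
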